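import Pool.Agent.Work.MP_484fb8_nt.Poly.IntPoly2

/-!
Almost all values of an integer-valued polynomial.
-/

set_option autoImplicit false

namespace Pool.Agent.Work.MP_484fb8_nt.Poly

open Finset Polynomial

/-- A common denominator. -/
theorem exists_denom (f : ℚ[X]) : ∃ D : ℕ, 0 < D ∧ ∃ g : ℤ[X],
    g.map (Int.castRingHom ℚ) = C (D : ℚ) * f := by
  refine ⟨∏ i ∈ f.support, (f.coeff i).den, prod_pos fun i _ => (f.coeff i).den_pos, ?_⟩
  set D := ∏ i ∈ f.support, (f.coeff i).den with hD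
  have h1 : C (D : ℚ) * f ∈ lifts (Int.castRingHom ℚ) := by
    rw [lifts_iff_coeff_lifts]
    intro n
    rw [coeff_C_mul]
    by_cases hn : n ∈ f.support
    · obtain ⟨c, hc⟩ := dvd_prod_of_mem (fun i => (f.coeff i).den) hn
      refine ⟨(c : ℤ) * (f.coeff n).num, ?_⟩
      rw [eq_intCast]
      push_cast
      have h2 : (D : ℚ) = (f.coeff n).den * c := by
        rw [hD, hc]
        push_cast
        ring
      rw [h2]
      have h3 : ((f.coeff n).den : ℚ) ≠ 0 := by exact_mod_cast (f.coeff n).den_ne_zero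
      have h4 : (f.coeff n).num = f.coeff n * (f.coeff n).den := (Rat.mul_den_eq_num _).symm
      rw [h4]
      ring
    · refine ⟨0, ?_⟩
      rw [notMem_support_iff.mp hn, mul_zero, map_zero]
  obtain ⟨g, hg⟩ := (mem_lifts _).mp h1
  exact ⟨g, hg⟩

/-- The polynomial in a residue class modulo the common denominator. -/
theorem exists_int_poly (f : ℚ[X]) (hd : 1 ≤ f.natDegree) (hlc : 0 < f.leadingCoeff)
    (hint : ∀ k : ℕ, ∃ z : ℤ, f.eval (k : ℚ) = z) (D : ℕ) (hD : 0 < D) (g : ℤ[X])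
    (hg : g.map (Int.castRingHom ℚ) = C (D : ℚ) * f) (r : ℕ) :
    ∃ h : ℤ[X], 1 ≤ h.natDegree ∧ 0 < h.leadingCoeff ∧
      ∀ j : ℕ, ((h.eval (j : ℤ) : ℤ) : ℚ) = f.eval ((D * j + r : ℕ) : ℚ) := by
  set p : ℚ[X] := (taylor (r : ℚ) f).comp (C (D : ℚ) * X) with hp
  have hDq : (0 : ℚ) < D := by exact_mod_cast hD
  have h1 : p ∈ lifts (Int.castRingHom ℚ) := by
    rw [lifts_iff_coeff_lifts]
    intro n
    rw [hp, comp_C_mul_X_coeff]
    rcases Nat.eq_zero_or_pos n with hn | hn
    · subst hn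
      obtain ⟨z, hz⟩ := hint r
      refine ⟨z, ?_⟩
      rw [pow_zero, mul_one, taylor_coeff_zero, hz, eq_intCast]
    · obtain ⟨m, rfl⟩ := Nat.exists_eq_add_of_le' hn
      refine ⟨(taylor (r : ℤ) g).coeff (m + 1) * (D : ℤ) ^ m, ?_⟩
      rw [eq_intCast]
      push_cast
      have h2 : (((taylor (r : ℤ) g).coeff (m + 1) : ℤ) : ℚ) = D * (taylor (r : ℚ) f).coeff (m + 1) := by
        have h3 : (taylor (r : ℤ) g).map (Int.castRingHom ℚ) = C (D : ℚ) * taylor (r : ℚ) f := by
          rw [taylor_apply, taylor_apply, Polynomial.map_comp, hg, mul_comp, C_comp]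
          simp
        have h4 := congrArg (fun q => q.coeff (m + 1)) h3
        simp only [coeff_map, coeff_C_mul] at h4
        rw [← h4]
        simp
      rw [h2]
      ring
  obtain ⟨h, hh⟩ := (mem_lifts _).mp h1
  have hinj : Function.Injective (Int.castRingHom ℚ) := by
    intro a b hab
    simpa using hab
  have hXdeg : (C (D : ℚ) * X : ℚ[X]).natDegree = 1 := natDegree_C_mul_X _ hDq.ne'
  have hXlc : (C (D : ℚ) * X : ℚ[X]).leadingCoeff = D := by
    rw [leadingCoeff_mul, leadingCoeff_C, leadingCoeff_X, mul_one]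
  have hpdeg : p.natDegree = f.natDegree := by
    rw [hp, natDegree_comp, hXdeg, mul_one, natDegree_taylor]
  have hplc : 0 < p.leadingCoeff := by
    rw [hp, leadingCoeff_comp (by rw [hXdeg]; norm_num), hXlc, leadingCoeff_taylor]
    positivity
  refine ⟨h, ?_, ?_, ?_⟩
  · rw [← natDegree_map_eq_of_injective hinj, hh, hpdeg]
    exact hd
  · have h2 : (h.leadingCoeff : ℚ) = p.leadingCoeff := by
      rw [← hh, leadingCoeff_map_of_injective hinj]
      simp
    have h3 : (0 : ℚ) < (h.leadingCoeff : ℚ) := by rw [h2]; exact hplc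
    exact_mod_cast h3
  · intro j
    have h2 : ((h.eval (j : ℤ) : ℤ) : ℚ) = p.eval (j : ℚ) := by
      rw [← hh]
      simp
    rw [h2, hp, eval_comp, taylor_eval]
    congr 1
    simp

open scoped Classical in
theorem rat_poly (f : ℚ[X]) (hd : 1 ≤ f.natDegree) (hlc : 0 < f.leadingCoeff)
    (hint : ∀ k : ℕ, ∃ z : ℤ, f.eval (k : ℚ) = z) (A : ℕ) :
    ∃ C : ℝ, ∀ X : ℕ, 2 ≤ X →
      (((Icc 1 X).filter (fun k : ℕ => ∃ n, 1 ≤ n ∧ ∃ m ∈ evensIn (n + 1), f.eval (k : ℚ) = (m : ℚ) ∧
        (primorialReps n m : ℝ) < 1 / 512 * (prml n / (Real.log (prml n)) ^ 2))).card : ℝ)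
        ≤ C * (X / (Real.log X) ^ A) := by
  obtain ⟨D, hD, g, hg⟩ := exists_denom f
  have hex := fun r => exists_int_poly f hd hlc hint D hD g hg r
  choose h hh1 hh2 hh3 using hex
  have hpi := fun r => poly_int (h r) (hh1 r) (hh2 r) A
  choose Cr hCr hCr2 using hpi
  obtain ⟨K, hK0, hK⟩ : ∃ K : ℝ, 0 < K ∧ ∀ X : ℝ, 1 ≤ X → (Real.log X) ^ A ≤ K * X := by
    obtain ⟨X1, hX1⟩ := Pool.Agent.Circle.log_pow_eventually A 1 one_pos
    refine ⟨(Real.log (max X1 1)) ^ A + 1, ?_, ?_⟩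
    · have : 0 ≤ Real.log (max X1 1) := Real.log_nonneg (le_max_right _ _)
      positivity
    · intro X hX
      have hl : 0 ≤ Real.log (max X1 1) := Real.log_nonneg (le_max_right _ _)
      have hlX : 0 ≤ Real.log X := Real.log_nonneg hX
      rcases le_or_gt X1 X with h1 | h1
      · have h2 := hX1 X h1
        have h3 : √X ≤ X := by
          rw [Real.sqrt_le_left (by linarith)]
          nlinarith
        have h4 : 0 ≤ (Real.log (max X1 1)) ^ A * X := by positivity
        linarith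
      · have h2 : (Real.log X) ^ A ≤ (Real.log (max X1 1)) ^ A := by
          apply pow_le_pow_left₀ hlX
          exact Real.log_le_log (by linarith) (h1.le.trans (le_max_left _ _))
        have h4 : 0 ≤ (Real.log (max X1 1)) ^ A := by positivity
        nlinarith
  refine ⟨D * K + ∑ r ∈ range D, Cr r, ?_⟩
  intro X hX
  have hXr : (2 : ℝ) ≤ X := by exact_mod_cast hX
  have hlog : 0 < Real.log X := Real.log_pos (by linarith)
  set Bad := (Icc 1 X).filter (fun k : ℕ => ∃ n, 1 ≤ n ∧ ∃ m ∈ evensIn (n + 1), f.eval (k : ℚ) = (m : ℚ) ∧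
        (primorialReps n m : ℝ) < 1 / 512 * (prml n / (Real.log (prml n)) ^ 2)) with hBad
  have hsub : Bad ⊆ range D ∪ (range D).biUnion (fun r =>
      ((Ioc 0 X).filter (fun j => ∃ n, 1 ≤ n ∧ BadAt (h r) n j)).image (fun j => D * j + r)) := by
    intro k hk
    rw [hBad, mem_filter, mem_Icc] at hk
    obtain ⟨⟨hk1, hkX⟩, n, hn, m, hm, hfm, hlt⟩ := hk
    rw [mem_union]
    rcases Nat.lt_or_ge k D with h1 | h1
    · left
      exact mem_range.mpr h1
    · right
      rw [mem_biUnion]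
      refine ⟨k % D, mem_range.mpr (Nat.mod_lt k hD), ?_⟩
      rw [mem_image]
      refine ⟨k / D, ?_, Nat.div_add_mod k D⟩
      rw [mem_filter, mem_Ioc]
      refine ⟨⟨Nat.div_pos h1 hD, (Nat.div_le_self k D).trans hkX⟩, n, hn, m, hm, ?_, hlt⟩
      have h2 := hh3 (k % D) (k / D)
      rw [Nat.div_add_mod k D, hfm] at h2
      exact_mod_cast h2
  have hcard : (Bad.card : ℝ) ≤ D + ∑ r ∈ range D,
      (((Ioc 0 X).filter (fun j => ∃ n, 1 ≤ n ∧ BadAt (h r) n j)).card : ℝ) := by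
    have e1 := (card_le_card hsub).trans (card_union_le _ _)
    rw [card_range] at e1
    have e2 := card_biUnion_le (s := range D) (t := fun r =>
      ((Ioc 0 X).filter (fun j => ∃ n, 1 ≤ n ∧ BadAt (h r) n j)).image (fun j => D * j + r))
    have e3 : ∑ r ∈ range D, (((Ioc 0 X).filter (fun j => ∃ n, 1 ≤ n ∧ BadAt (h r) n j)).image
        (fun j => D * j + r)).card ≤ ∑ r ∈ range D,
        ((Ioc 0 X).filter (fun j => ∃ n, 1 ≤ n ∧ BadAt (h r) n j)).card :=
      sum_le_sum fun r _ => card_image_le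
    exact_mod_cast e1.trans (Nat.add_le_add_left (e2.trans e3) _)
  refine hcard.trans ?_
  have h1 : (D : ℝ) ≤ D * K * (X / (Real.log X) ^ A) := by
    have e1 := hK X (by linarith)
    have e2 : 1 ≤ K * (X / (Real.log X) ^ A) := by
      rw [← mul_div_assoc, le_div_iff₀ (by positivity), one_mul]
      exact e1
    calc (D : ℝ) = D * 1 := (mul_one _).symm
      _ ≤ D * (K * (X / (Real.log X) ^ A)) := by gcongr
      _ = _ := by ring
  rw [add_mul, sum_mul]
  refine add_le_add h1 (sum_le_sum fun r _ => hCr2 r X hX)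

end Pool.Agent.Work.MP_484fb8_nt.Poly
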