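import Mathlib

/-!
Counting the arguments where a polynomial value is divisible by a squarefree number.
-/

set_option autoImplicit false

namespace Pool.Agent.Work.MP_484fb8_nt.Poly

open Finset Polynomial

/-- The roots of a polynomial modulo `m`. -/
noncomputable def rootsMod (f : ℤ[X]) (m : ℕ) : Finset ℕ :=
  (range m).filter (fun r : ℕ => (m : ℤ) ∣ f.eval (r : ℤ))

theorem dvd_eval_mod (f : ℤ[X]) (m n k : ℕ) (hmn : m ∣ n) :
    (m : ℤ) ∣ f.eval ((k % n : ℕ) : ℤ) ↔ (m : ℤ) ∣ f.eval (k : ℤ) := by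
  have h1 : (m : ℤ) ∣ (k : ℤ) - ((k % n : ℕ) : ℤ) := by
    have h2 : (n : ℤ) ∣ (k : ℤ) - ((k % n : ℕ) : ℤ) := by
      refine ⟨((k / n : ℕ) : ℤ), ?_⟩
      have := Nat.div_add_mod k n
      have h3 : ((n * (k / n) + k % n : ℕ) : ℤ) = (k : ℤ) := by exact_mod_cast this
      push_cast at h3 ⊢
      linarith
    exact (Int.natCast_dvd_natCast.mpr hmn).trans h2
  have h2 : (m : ℤ) ∣ f.eval (k : ℤ) - f.eval ((k % n : ℕ) : ℤ) :=
    h1.trans (Polynomial.sub_dvd_eval_sub _ _ f)
  constructor
  · intro h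
    have := dvd_add h2 h
    rwa [sub_add_cancel] at this
  · intro h
    have := dvd_sub h h2
    rwa [sub_sub_cancel] at this

theorem count_dvd (f : ℤ[X]) (m M : ℕ) (hm : 0 < m) :
    ((Ioc 0 M).filter (fun k : ℕ => (m : ℤ) ∣ f.eval (k : ℤ))).card
      ≤ (M / m + 1) * (rootsMod f m).card := by
  have h1 : ((Ioc 0 M).filter (fun k : ℕ => (m : ℤ) ∣ f.eval (k : ℤ))).card
      ≤ (range (M / m + 1) ×ˢ rootsMod f m).card := by
    apply card_le_card_of_injOn (fun k => (k / m, k % m))
    · intro k hk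
      rw [mem_coe, mem_filter, mem_Ioc] at hk
      rw [mem_coe, mem_product, mem_range, rootsMod, mem_filter, mem_range]
      refine ⟨Nat.lt_succ_of_le (Nat.div_le_div_right hk.1.2), Nat.mod_lt _ hm, ?_⟩
      rw [dvd_eval_mod f m m k dvd_rfl]
      exact hk.2
    · intro x _ y _ hxy
      simp only [Prod.mk.injEq] at hxy
      have h1 := Nat.div_add_mod x m
      have h2 := Nat.div_add_mod y m
      rw [hxy.1, hxy.2] at h1
      omega
  rwa [card_product, card_range] at h1

theorem rootsMod_mul (f : ℤ[X]) (p m : ℕ) (hp : 0 < p) (hm : 0 < m) (h : p.Coprime m) :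
    (rootsMod f (p * m)).card ≤ (rootsMod f p).card * (rootsMod f m).card := by
  rw [← card_product]
  apply card_le_card_of_injOn (fun k => (k % p, k % m))
  · intro k hk
    rw [mem_coe, rootsMod, mem_filter, mem_range] at hk
    rw [mem_coe, mem_product, rootsMod, rootsMod, mem_filter, mem_filter, mem_range, mem_range]
    have h1 : (p : ℤ) ∣ f.eval (k : ℤ) := (Int.natCast_dvd_natCast.mpr (dvd_mul_right p m)).trans hk.2
    have h2 : (m : ℤ) ∣ f.eval (k : ℤ) := (Int.natCast_dvd_natCast.mpr (dvd_mul_left m p)).trans hk.2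
    exact ⟨⟨Nat.mod_lt _ hp, (dvd_eval_mod f p p k dvd_rfl).mpr h1⟩,
      ⟨Nat.mod_lt _ hm, (dvd_eval_mod f m m k dvd_rfl).mpr h2⟩⟩
  · intro x hx y hy hxy
    rw [mem_coe, rootsMod, mem_filter, mem_range] at hx hy
    simp only [Prod.mk.injEq] at hxy
    have h1 : x ≡ y [MOD p * m] := (Nat.modEq_and_modEq_iff_modEq_mul h).mp ⟨hxy.1, hxy.2⟩
    exact Nat.ModEq.eq_of_lt_of_lt h1 hx.1 hy.1

theorem rootsMod_prime (f : ℤ[X]) (hf : f ≠ 0) (p : ℕ) (hp : p.Prime) :
    (rootsMod f p).card ≤ f.natDegree + f.leadingCoeff.natAbs := by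
  have : Fact p.Prime := ⟨hp⟩
  by_cases hdvd : (p : ℤ) ∣ f.leadingCoeff
  · have h1 : (rootsMod f p).card ≤ p := by
      refine (card_filter_le _ _).trans ?_
      rw [card_range]
    have h2 : p ≤ f.leadingCoeff.natAbs := by
      apply Nat.le_of_dvd
      · exact Int.natAbs_pos.mpr (leadingCoeff_ne_zero.mpr hf)
      · exact Int.natCast_dvd.mp hdvd
    omega
  · set g : (ZMod p)[X] := f.map (Int.castRingHom (ZMod p)) with hg
    have hg0 : g ≠ 0 := by
      intro h0
      apply hdvd
      have h1 : g.coeff f.natDegree = 0 := by rw [h0, coeff_zero]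
      rw [hg, coeff_map] at h1
      rw [← ZMod.intCast_zmod_eq_zero_iff_dvd]
      exact h1
    have h1 : (rootsMod f p).card ≤ g.roots.toFinset.card := by
      apply card_le_card_of_injOn (fun r : ℕ => (r : ZMod p))
      · intro r hr
        rw [mem_coe, rootsMod, mem_filter, mem_range] at hr
        rw [mem_coe, Multiset.mem_toFinset, mem_roots hg0, IsRoot.def, hg]
        have h2 : ((r : ℕ) : ZMod p) = Int.castRingHom (ZMod p) (r : ℤ) := by simp
        show eval ((r : ℕ) : ZMod p) _ = 0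
        rw [h2, eval_map_apply]
        simp only [eq_intCast]
        rw [ZMod.intCast_zmod_eq_zero_iff_dvd]
        exact hr.2
      · intro x hx y hy hxy
        rw [mem_coe, rootsMod, mem_filter, mem_range] at hx hy
        simp only at hxy
        rw [ZMod.natCast_eq_natCast_iff] at hxy
        exact Nat.ModEq.eq_of_lt_of_lt hxy hx.1 hy.1
    have h2 : g.roots.toFinset.card ≤ g.natDegree :=
      (Multiset.toFinset_card_le _).trans (card_roots' g)
    have h3 : g.natDegree ≤ f.natDegree := natDegree_map_le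
    omega

theorem rootsMod_prod (f : ℤ[X]) (hf : f ≠ 0) (t : Finset ℕ) (ht : ∀ p ∈ t, p.Prime) :
    (rootsMod f (∏ p ∈ t, p)).card ≤ (f.natDegree + f.leadingCoeff.natAbs) ^ t.card := by
  induction t using Finset.induction_on with
  | empty =>
    rw [prod_empty, card_empty, pow_zero]
    refine (card_filter_le _ _).trans ?_
    rw [card_range]
  | insert p s hps ih =>
    have ih' := ih fun q hq => ht q (mem_insert_of_mem hq)
    have hp := ht p (mem_insert_self p s)
    rw [prod_insert hps, card_insert_of_notMem hps, pow_succ, mul_comm (_ ^ _)]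
    refine (rootsMod_mul f p (∏ q ∈ s, q) hp.pos
      (prod_pos fun q hq => (ht q (mem_insert_of_mem hq)).pos) ?_).trans ?_
    · rw [Nat.coprime_prod_right_iff]
      intro q hq
      rw [Nat.coprime_primes hp (ht q (mem_insert_of_mem hq))]
      rintro rfl
      exact hps hq
    · exact Nat.mul_le_mul (rootsMod_prime f hf p hp) ih'

end Pool.Agent.Work.MP_484fb8_nt.Poly
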