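import Pool.Agent.Work.Circle.SingLower
import Pool.Agent.Work.MP_484fb8_nt.Poly.Roots

/-!
The truncated singular series on average over polynomial values.
-/

set_option autoImplicit false

namespace Pool.Agent.Work.MP_484fb8_nt.Poly

open Finset ArithmeticFunction Pool.Agent.SW Pool.Agent.Circle
open scoped ArithmeticFunction.Moebius

/-- `√p / (p - 1)`. -/
noncomputable def ww (p : ℕ) : ℝ := √(p : ℝ) / ((p : ℝ) - 1)

/-- The Euler product over the prime factors. -/
noncomputable def TT (m : ℕ) : ℝ := ∏ p ∈ m.primeFactors, (1 + ww p)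

theorem ww_nonneg (p : ℕ) (hp : 1 ≤ p) : 0 ≤ ww p := by
  unfold ww
  have : (1 : ℝ) ≤ p := by exact_mod_cast hp
  apply div_nonneg (Real.sqrt_nonneg _)
  linarith

theorem euler_bound' (m Q : ℕ) (hm : 0 < m) :
    ∑ d ∈ (primorial Q).divisors, Gs m d ≤ Real.exp 8 * TT m := by
  rw [prod_eq (Gs m) (Gs_mult m)]
  -- termwise
  have h1 : ∀ k ∈ range (Q + 1), (if k.Prime then 1 + Gs m k else 1)
      ≤ ((if k.Prime ∧ k ∣ m then 1 + ww k else 1 : ℝ))
        * Real.exp (if 2 ≤ k then 4 * (√(k : ℝ) * ((k : ℝ) ^ 2)⁻¹) else 0) := by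
    intro k _
    by_cases hp : k.Prime
    · have hk2 := hp.two_le
      have hkr : (2 : ℝ) ≤ k := by exact_mod_cast hk2
      have hk1 : (0 : ℝ) < (k : ℝ) - 1 := by linarith
      rw [if_pos hp, if_pos hk2, Gs_apply, Fs_prime m k hp]
      have he : 1 + √(k : ℝ) / ((k : ℝ) - 1) ^ 2 ≤ Real.exp (4 * (√(k : ℝ) * ((k : ℝ) ^ 2)⁻¹)) := by
        have h2 := Real.add_one_le_exp (4 * (√(k : ℝ) * ((k : ℝ) ^ 2)⁻¹))
        have h3 := sqrt_div_le k hk2
        linarith
      have he1 : 1 ≤ Real.exp (4 * (√(k : ℝ) * ((k : ℝ) ^ 2)⁻¹)) := Real.one_le_exp (by positivity)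
      by_cases hd : k ∣ m
      · rw [if_pos hd, if_pos ⟨hp, hd⟩, abs_of_pos (by positivity), mul_one_div]
        have h4 : 0 ≤ ww k := ww_nonneg k hp.one_le
        calc 1 + √(k : ℝ) / ((k : ℝ) - 1) = (1 + ww k) * 1 := by rw [mul_one]; rfl
          _ ≤ _ := by gcongr
      · rw [if_neg hd, if_neg (fun h => hd h.2), one_mul, abs_div, abs_neg, abs_one,
          abs_of_pos (by positivity), mul_one_div]
        exact he
    · rw [if_neg hp, if_neg (fun h => hp h.1), one_mul]
      apply Real.one_le_exp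
      split_ifs <;> positivity
  have h2 : ∏ k ∈ range (Q + 1), (if k.Prime then 1 + Gs m k else 1)
      ≤ ∏ k ∈ range (Q + 1), (((if k.Prime ∧ k ∣ m then 1 + ww k else 1 : ℝ))
        * Real.exp (if 2 ≤ k then 4 * (√(k : ℝ) * ((k : ℝ) ^ 2)⁻¹) else 0)) := by
    apply prod_le_prod
    · intro k _
      have : 0 ≤ Gs m k := by rw [Gs_apply]; positivity
      split_ifs <;> linarith
    · exact h1
  refine h2.trans ?_
  rw [prod_mul_distrib, ← Real.exp_sum]
  have h3 : ∑ k ∈ range (Q + 1), (if 2 ≤ k then 4 * (√(k : ℝ) * ((k : ℝ) ^ 2)⁻¹) else 0) ≤ 8 := by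
    rw [← sum_filter, ← mul_sum]
    have h4 : (range (Q + 1)).filter (fun k => 2 ≤ k) = Ico (1 + 1) (Q + 1) := by
      ext k
      rw [mem_filter, mem_range, mem_Ico]
      omega
    rw [h4]
    have h5 := sum_inv_three_half 1 (Q + 1) one_pos
    rw [Nat.cast_one, Real.sqrt_one] at h5
    linarith
  have h4 : ∏ k ∈ range (Q + 1), (if k.Prime ∧ k ∣ m then 1 + ww k else 1 : ℝ) ≤ TT m := by
    rw [← prod_filter]
    unfold TT
    have hsub : (range (Q + 1)).filter (fun k => k.Prime ∧ k ∣ m) ⊆ m.primeFactors := by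
      intro k hk
      rw [mem_filter] at hk
      exact Nat.mem_primeFactors.mpr ⟨hk.2.1, hk.2.2, hm.ne'⟩
    rw [← prod_sdiff hsub]
    have e1 : (1 : ℝ) ≤ ∏ k ∈ m.primeFactors \ (range (Q + 1)).filter (fun k => k.Prime ∧ k ∣ m), (1 + ww k) := by
      calc (1 : ℝ) = ∏ k ∈ m.primeFactors \ (range (Q + 1)).filter (fun k => k.Prime ∧ k ∣ m), 1 := by
            rw [prod_const_one]
        _ ≤ _ := by
            apply prod_le_prod
            · intro _ _; norm_num
            · intro k hk
              rw [mem_sdiff] at hk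
              have := ww_nonneg k (Nat.prime_of_mem_primeFactors hk.1).one_le
              linarith
    have e2 : 0 ≤ ∏ k ∈ (range (Q + 1)).filter (fun k => k.Prime ∧ k ∣ m), (1 + ww k) := by
      apply prod_nonneg
      intro k hk
      rw [mem_filter] at hk
      have := ww_nonneg k hk.2.1.one_le
      linarith
    exact le_mul_of_one_le_left e2 e1
  have hT0 : 0 ≤ ∏ k ∈ range (Q + 1), (if k.Prime ∧ k ∣ m then 1 + ww k else 1 : ℝ) := by
    apply prod_nonneg
    intro k _
    split_ifs with h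
    · have := ww_nonneg k h.1.one_le
      linarith
    · norm_num
  have h5 : Real.exp (∑ k ∈ range (Q + 1), (if 2 ≤ k then 4 * (√(k : ℝ) * ((k : ℝ) ^ 2)⁻¹) else 0))
      ≤ Real.exp 8 := Real.exp_le_exp.mpr h3
  calc _ ≤ TT m * Real.exp 8 := by
        apply mul_le_mul h4 h5 (Real.exp_pos _).le (hT0.trans h4)
    _ = _ := by ring

theorem sing_lower' (Q : ℕ) (hQ : 1 ≤ Q) (m : ℕ) (hm : 0 < m) (hev : Even m) :
    1 - Real.exp 8 * TT m / √Q ≤ sing Q m := by
  have hQr : (1 : ℝ) ≤ Q := by exact_mod_cast hQ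
  have hsQ : 0 < √(Q : ℝ) := Real.sqrt_pos.mpr (by linarith)
  have hsplit := sum_filter_add_sum_filter_not (primorial Q).divisors (fun d => d ≤ Q)
    (fun d => Fs m d)
  have h1 : ∑ d ∈ (primorial Q).divisors.filter (fun d => d ≤ Q), Fs m d = sing Q m := by
    unfold sing
    have h2 : ∑ r ∈ Ioc 0 Q, ((μ r : ℝ) ^ 2 / (r.totient : ℝ) ^ 2) * (rsum m r : ℝ)
        = ∑ r ∈ Ioc 0 Q, Fs m r := rfl
    rw [h2]
    apply sum_subset
    · intro d hd
      rw [mem_filter] at hd
      rw [mem_Ioc]
      exact ⟨Nat.pos_of_mem_divisors hd.1, hd.2⟩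
    · intro d hd hnot
      rw [mem_Ioc] at hd
      rw [Fs_apply, moebius_eq_zero_of_not_squarefree]
      · simp
      · intro hsq
        apply hnot
        rw [mem_filter, Nat.mem_divisors]
        exact ⟨⟨(hsq.dvd_primorial).trans (primorial_dvd_primorial hd.2), primorial_ne_zero Q⟩, hd.2⟩
  have h2 : |∑ d ∈ (primorial Q).divisors.filter (fun d => ¬ d ≤ Q), Fs m d|
      ≤ Real.exp 8 * TT m / √Q := by
    rw [le_div_iff₀ hsQ]
    calc |∑ d ∈ (primorial Q).divisors.filter (fun d => ¬ d ≤ Q), Fs m d| * √Q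
        ≤ (∑ d ∈ (primorial Q).divisors.filter (fun d => ¬ d ≤ Q), |Fs m d|) * √Q := by
          gcongr
          exact abs_sum_le_sum_abs _ _
      _ = ∑ d ∈ (primorial Q).divisors.filter (fun d => ¬ d ≤ Q), |Fs m d| * √Q := by rw [sum_mul]
      _ ≤ ∑ d ∈ (primorial Q).divisors.filter (fun d => ¬ d ≤ Q), Gs m d := by
          refine sum_le_sum fun d hd => ?_
          rw [mem_filter] at hd
          rw [Gs_apply, mul_comm]
          have : (Q : ℝ) ≤ d := by exact_mod_cast (not_le.mp hd.2).le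
          gcongr
      _ ≤ ∑ d ∈ (primorial Q).divisors, Gs m d :=
          sum_le_sum_of_subset_of_nonneg (filter_subset _ _) fun d _ _ => by
            rw [Gs_apply]; positivity
      _ ≤ _ := euler_bound' m Q hm
  have h3 := full_ge m Q hev
  rw [← hsplit, h1] at h3
  have h4 := abs_le.mp h2
  linarith [h4.2]

/-! ### The average over polynomial values -/

theorem three_pow_omega (d : ℕ) (hd : 1 ≤ d) (m : ℕ) (hm : 0 < m) (C0 Y : ℝ) (hC0 : 1 ≤ C0)
    (hY : 1 ≤ Y) (hmY : (m : ℝ) ≤ C0 * Y ^ d) :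
    (3 : ℝ) ^ m.primeFactors.card ≤ 3 ^ (81 ^ d) * (C0 * √√Y) := by
  have hcard := card_filter_add_card_filter_not (s := m.primeFactors) (fun p => p < 81 ^ d)
  set s1 := m.primeFactors.filter (fun p => p < 81 ^ d) with hs1
  set s2 := m.primeFactors.filter (fun p => ¬ p < 81 ^ d) with hs2
  have h1 : s1.card ≤ 81 ^ d := by
    have : s1 ⊆ range (81 ^ d) := by
      intro p hp
      rw [hs1, mem_filter] at hp
      exact mem_range.mpr hp.2
    have h2 := card_le_card this
    rwa [card_range] at h2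
  have hsY : 1 ≤ √√Y := by rw [Real.one_le_sqrt, Real.one_le_sqrt]; exact hY
  have h2 : (3 : ℝ) ^ s2.card ≤ C0 * √√Y := by
    by_contra hcon
    push Not at hcon
    have h3 : (C0 * √√Y) ^ (4 * d) < ((3 : ℝ) ^ s2.card) ^ (4 * d) :=
      pow_lt_pow_left₀ hcon (by positivity) (by omega)
    have h4 : ((3 : ℝ) ^ s2.card) ^ (4 * d) ≤ m := by
      have h5 : ((3 : ℕ) ^ s2.card) ^ (4 * d) ≤ m := by
        calc ((3 : ℕ) ^ s2.card) ^ (4 * d) = (81 ^ d) ^ s2.card := by
              rw [← pow_mul, ← pow_mul, show (81 : ℕ) = 3 ^ 4 by norm_num, ← pow_mul]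
              congr 1
              ring
          _ = ∏ p ∈ s2, 81 ^ d := by rw [prod_const]
          _ ≤ ∏ p ∈ s2, p := by
              apply prod_le_prod'
              intro p hp
              rw [hs2, mem_filter] at hp
              exact not_lt.mp hp.2
          _ ≤ ∏ p ∈ m.primeFactors, p := by
              apply prod_le_prod_of_subset_of_one_le'
              · exact filter_subset _ _
              · intro p hp _
                exact (Nat.prime_of_mem_primeFactors hp).one_le
          _ ≤ m := Nat.le_of_dvd hm (Nat.prod_primeFactors_dvd m)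
      exact_mod_cast h5
    have h5 : C0 * Y ^ d ≤ (C0 * √√Y) ^ (4 * d) := by
      have h6 : (√√Y) ^ (4 * d) = Y ^ d := by
        rw [pow_mul]
        congr 1
        have e1 : (√√Y) ^ 4 = ((√√Y) ^ 2) ^ 2 := by ring
        rw [e1, Real.sq_sqrt (Real.sqrt_nonneg _), Real.sq_sqrt (by linarith)]
      rw [mul_pow, h6]
      have h7 : C0 ≤ C0 ^ (4 * d) := le_self_pow₀ hC0 (by omega)
      gcongr
    linarith
  rw [← hcard, pow_add]
  have h3 : (3 : ℝ) ^ s1.card ≤ 3 ^ (81 ^ d) := pow_le_pow_right₀ (by norm_num) h1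
  gcongr

theorem avg_T (f : Polynomial ℤ) (hf : f ≠ 0) (d : ℕ) (hd : 1 ≤ d) (C0 : ℝ) (hC0 : 1 ≤ C0) :
    ∃ C : ℝ, 0 < C ∧ ∀ (g : ℕ → ℕ) (I : Finset ℕ) (Y : ℝ), 1 ≤ Y →
      (∀ k ∈ I, 0 < k ∧ (k : ℝ) ≤ C0 * Y ∧ 0 < g k ∧ ((g k : ℕ) : ℤ) = f.eval (k : ℤ) ∧
        (g k : ℝ) ≤ C0 * Y ^ d) →
      ∑ k ∈ I, TT (g k) ≤ C * Y := by
  set D : ℕ := f.natDegree + f.leadingCoeff.natAbs with hD
  refine ⟨(C0 + 1) * Real.exp (4 * D) + C0 * (3 ^ (81 ^ d) * C0), by positivity, ?_⟩
  intro g I Y hY hI
  have hY0 : 0 < Y := by linarith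
  have hsY : 0 < √√Y := by
    apply Real.sqrt_pos.mpr
    exact Real.sqrt_pos.mpr hY0
  set PP : Finset ℕ := I.biUnion (fun k => (g k).primeFactors) with hPP
  have hPPprime : ∀ p ∈ PP, p.Prime := by
    intro p hp
    rw [hPP, mem_biUnion] at hp
    obtain ⟨k, _, hk⟩ := hp
    exact Nat.prime_of_mem_primeFactors hk
  set W : Finset ℕ → ℝ := fun t => ∏ p ∈ t, ww p with hW
  set E : Finset ℕ → ℕ := fun t => ∏ p ∈ t, p with hE
  -- the expansion
  have h1 : ∀ k ∈ I, TT (g k) = ∑ t ∈ (g k).primeFactors.powerset.filter (fun t => (E t : ℝ) ≤ Y), W t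
      + ∑ t ∈ (g k).primeFactors.powerset.filter (fun t => ¬ (E t : ℝ) ≤ Y), W t := by
    intro k _
    rw [sum_filter_add_sum_filter_not]
    unfold TT
    rw [prod_one_add]
  rw [sum_congr rfl h1, sum_add_distrib]
  -- nonnegativity
  have hWnn : ∀ t : Finset ℕ, (∀ p ∈ t, p.Prime) → 0 ≤ W t := by
    intro t ht
    exact prod_nonneg fun p hp => ww_nonneg p (ht p hp).one_le
  -- small divisors
  have h2 : ∑ k ∈ I, ∑ t ∈ (g k).primeFactors.powerset.filter (fun t => (E t : ℝ) ≤ Y), W t
      ≤ (C0 + 1) * Real.exp (4 * D) * Y := by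
    have e1 : ∑ k ∈ I, ∑ t ∈ (g k).primeFactors.powerset.filter (fun t => (E t : ℝ) ≤ Y), W t
        = ∑ t ∈ PP.powerset.filter (fun t => (E t : ℝ) ≤ Y),
          ∑ k ∈ I.filter (fun k => t ⊆ (g k).primeFactors), W t := by
      apply sum_comm'
      intro k t
      simp only [mem_filter, mem_powerset]
      constructor
      · rintro ⟨hk, ht, hE⟩
        refine ⟨⟨hk, ht⟩, ?_, hE⟩
        exact ht.trans (subset_biUnion_of_mem (fun k => (g k).primeFactors) hk)
      · rintro ⟨⟨hk, ht⟩, _, hE⟩
        exact ⟨hk, ht, hE⟩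
    rw [e1]
    have e2 : ∀ t ∈ PP.powerset.filter (fun t => (E t : ℝ) ≤ Y),
        ∑ k ∈ I.filter (fun k => t ⊆ (g k).primeFactors), W t
          ≤ (C0 + 1) * Y * ∏ p ∈ t, (ww p * (D / p)) := by
      intro t ht
      rw [mem_filter, mem_powerset] at ht
      have htp : ∀ p ∈ t, p.Prime := fun p hp => hPPprime p (ht.1 hp)
      have hE0 : 0 < E t := prod_pos fun p hp => (htp p hp).pos
      have hEr : (0 : ℝ) < E t := by exact_mod_cast hE0
      rw [sum_const, nsmul_eq_mul]
      have e3 : ((I.filter (fun k => t ⊆ (g k).primeFactors)).card : ℝ)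
          ≤ (C0 + 1) * Y / E t * (D : ℝ) ^ t.card := by
        have e4 : (I.filter (fun k => t ⊆ (g k).primeFactors)).card
            ≤ ((Ioc 0 ⌊C0 * Y⌋₊).filter (fun k : ℕ => (E t : ℤ) ∣ f.eval (k : ℤ))).card := by
          apply card_le_card
          intro k hk
          rw [mem_filter] at hk
          obtain ⟨hk0, hkY, hg0, hgf, _⟩ := hI k hk.1
          rw [mem_filter, mem_Ioc]
          refine ⟨⟨hk0, Nat.le_floor hkY⟩, ?_⟩
          rw [← hgf, Int.natCast_dvd_natCast]
          have e5 : E t ∣ ∏ p ∈ (g k).primeFactors, p := prod_dvd_prod_of_subset _ _ _ hk.2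
          exact e5.trans (Nat.prod_primeFactors_dvd (g k))
        have e5 := e4.trans ((count_dvd f (E t) ⌊C0 * Y⌋₊ hE0).trans
          (Nat.mul_le_mul_left _ (rootsMod_prod f hf t htp)))
        have e6 : ((I.filter (fun k => t ⊆ (g k).primeFactors)).card : ℝ)
            ≤ ((⌊C0 * Y⌋₊ / E t : ℕ) + 1 : ℝ) * (D : ℝ) ^ t.card := by exact_mod_cast e5
        refine e6.trans ?_
        gcongr
        have e7 : ((⌊C0 * Y⌋₊ / E t : ℕ) : ℝ) ≤ C0 * Y / E t := by
          refine Nat.cast_div_le.trans ?_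
          gcongr
          exact Nat.floor_le (by positivity)
        have e8 : 1 ≤ Y / E t := by rw [le_div_iff₀ hEr, one_mul]; exact ht.2
        calc ((⌊C0 * Y⌋₊ / E t : ℕ) : ℝ) + 1 ≤ C0 * Y / E t + Y / E t := by linarith
          _ = _ := by ring
      calc ((I.filter (fun k => t ⊆ (g k).primeFactors)).card : ℝ) * W t
          ≤ ((C0 + 1) * Y / E t * (D : ℝ) ^ t.card) * W t := by
            have := hWnn t htp
            gcongr
        _ = (C0 + 1) * Y * ∏ p ∈ t, (ww p * (D / p)) := by
            rw [prod_mul_distrib, prod_div_distrib, prod_const, hW, hE]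
            push_cast
            ring
    refine (sum_le_sum e2).trans ?_
    rw [← mul_sum]
    have e3 : ∑ t ∈ PP.powerset.filter (fun t => (E t : ℝ) ≤ Y), ∏ p ∈ t, (ww p * (D / p))
        ≤ Real.exp (4 * D) := by
      calc ∑ t ∈ PP.powerset.filter (fun t => (E t : ℝ) ≤ Y), ∏ p ∈ t, (ww p * (D / p))
          ≤ ∑ t ∈ PP.powerset, ∏ p ∈ t, (ww p * (D / p)) := by
            apply sum_le_sum_of_subset_of_nonneg (filter_subset _ _)
            intro t ht _
            rw [mem_powerset] at ht
            refine prod_nonneg fun p hp => ?_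
            have := ww_nonneg p (hPPprime p (ht hp)).one_le
            positivity
        _ = ∏ p ∈ PP, (1 + ww p * (D / p)) := by rw [prod_one_add]
        _ ≤ ∏ p ∈ PP, Real.exp (ww p * (D / p)) := by
            apply prod_le_prod
            · intro p hp
              have := ww_nonneg p (hPPprime p hp).one_le
              positivity
            · intro p _
              have := Real.add_one_le_exp (ww p * (D / p))
              linarith
        _ = Real.exp (∑ p ∈ PP, ww p * (D / p)) := by rw [Real.exp_sum]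
        _ ≤ Real.exp (4 * D) := by
            apply Real.exp_le_exp.mpr
            have e4 : ∀ p ∈ PP, ww p * (D / p) ≤ 2 * D * (√(p : ℝ) * ((p : ℝ) ^ 2)⁻¹) := by
              intro p hp
              have hp2 : (2 : ℝ) ≤ p := by exact_mod_cast (hPPprime p hp).two_le
              have e5 : 1 / ((p : ℝ) - 1) ≤ 2 / p := by
                rw [div_le_div_iff₀ (by linarith) (by linarith)]
                linarith
              calc ww p * (D / p) = √(p : ℝ) * (1 / ((p : ℝ) - 1)) * (D / p) := by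
                    unfold ww; ring
                _ ≤ √(p : ℝ) * (2 / p) * (D / p) := by gcongr
                _ = _ := by
                    field_simp
            refine (sum_le_sum e4).trans ?_
            rw [← mul_sum]
            have e5 : ∑ p ∈ PP, √(p : ℝ) * ((p : ℝ) ^ 2)⁻¹ ≤ 2 := by
              obtain ⟨Q, hQ⟩ : ∃ Q : ℕ, ∀ p ∈ PP, p ≤ Q := ⟨PP.sup id, fun p hp => le_sup (f := id) hp⟩
              have e6 := sum_inv_three_half 1 (Q + 1) one_pos
              rw [Nat.cast_one, Real.sqrt_one] at e6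
              calc ∑ p ∈ PP, √(p : ℝ) * ((p : ℝ) ^ 2)⁻¹
                  ≤ ∑ p ∈ Ico (1 + 1) (Q + 1), √(p : ℝ) * ((p : ℝ) ^ 2)⁻¹ := by
                    apply sum_le_sum_of_subset_of_nonneg
                    · intro p hp
                      rw [mem_Ico]
                      have := (hPPprime p hp).two_le
                      have := hQ p hp
                      omega
                    · intro p _ _
                      positivity
                _ ≤ 2 := by linarith
            calc 2 * (D : ℝ) * ∑ p ∈ PP, √(p : ℝ) * ((p : ℝ) ^ 2)⁻¹ ≤ 2 * D * 2 := by gcongr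
              _ = _ := by ring
    calc (C0 + 1) * Y * ∑ t ∈ PP.powerset.filter (fun t => (E t : ℝ) ≤ Y), ∏ p ∈ t, (ww p * (D / p))
        ≤ (C0 + 1) * Y * Real.exp (4 * D) := by gcongr
      _ = _ := by ring
  -- large divisors
  have h3 : ∑ k ∈ I, ∑ t ∈ (g k).primeFactors.powerset.filter (fun t => ¬ (E t : ℝ) ≤ Y), W t
      ≤ C0 * (3 ^ (81 ^ d) * C0) * Y := by
    have e1 : ∀ k ∈ I, ∑ t ∈ (g k).primeFactors.powerset.filter (fun t => ¬ (E t : ℝ) ≤ Y), W t
        ≤ 3 ^ (81 ^ d) * C0 := by
      intro k hk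
      obtain ⟨hk0, hkY, hg0, hgf, hgY⟩ := hI k hk
      have e2 : ∀ p ∈ (g k).primeFactors, ww p * √√(p : ℝ) ≤ 2 := by
        intro p hp
        have hp2 : (2 : ℝ) ≤ p := by exact_mod_cast (Nat.prime_of_mem_primeFactors hp).two_le
        have e3 : √√(p : ℝ) ≤ √(p : ℝ) := by
          rw [Real.sqrt_le_sqrt_iff (by linarith)]
          rw [Real.sqrt_le_left (by linarith)]
          nlinarith
        unfold ww
        rw [div_mul_eq_mul_div, div_le_iff₀ (by linarith)]
        calc √(p : ℝ) * √√(p : ℝ) ≤ √(p : ℝ) * √(p : ℝ) := by gcongr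
          _ = p := Real.mul_self_sqrt (by linarith)
          _ ≤ _ := by linarith
      have e3 : √√Y * ∑ t ∈ (g k).primeFactors.powerset.filter (fun t => ¬ (E t : ℝ) ≤ Y), W t
          ≤ 3 ^ (g k).primeFactors.card := by
        calc √√Y * ∑ t ∈ (g k).primeFactors.powerset.filter (fun t => ¬ (E t : ℝ) ≤ Y), W t
            = ∑ t ∈ (g k).primeFactors.powerset.filter (fun t => ¬ (E t : ℝ) ≤ Y), √√Y * W t := by
              rw [mul_sum]
          _ ≤ ∑ t ∈ (g k).primeFactors.powerset.filter (fun t => ¬ (E t : ℝ) ≤ Y),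
              ∏ p ∈ t, (ww p * √√(p : ℝ)) := by
              refine sum_le_sum fun t ht => ?_
              rw [mem_filter, mem_powerset] at ht
              have htp : ∀ p ∈ t, p.Prime := fun p hp => Nat.prime_of_mem_primeFactors (ht.1 hp)
              have e4 : ∏ p ∈ t, √√(p : ℝ) = √√((E t : ℕ) : ℝ) := by
                rw [hE]
                simp only
                clear ht htp
                induction t using Finset.induction_on with
                | empty => simp
                | insert p s hps ih =>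
                  rw [prod_insert hps, prod_insert hps, ih, Nat.cast_mul,
                    Real.sqrt_mul (Nat.cast_nonneg _), Real.sqrt_mul (Real.sqrt_nonneg _)]
              rw [prod_mul_distrib, e4, mul_comm]
              have e5 := hWnn t htp
              have e6 : √√Y ≤ √√((E t : ℕ) : ℝ) := by
                apply Real.sqrt_le_sqrt
                exact Real.sqrt_le_sqrt (not_le.mp ht.2).le
              exact mul_le_mul_of_nonneg_left e6 e5
          _ ≤ ∑ t ∈ (g k).primeFactors.powerset, ∏ p ∈ t, (ww p * √√(p : ℝ)) := by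
              apply sum_le_sum_of_subset_of_nonneg (filter_subset _ _)
              intro t ht _
              rw [mem_powerset] at ht
              refine prod_nonneg fun p hp => ?_
              have := ww_nonneg p (Nat.prime_of_mem_primeFactors (ht hp)).one_le
              positivity
          _ = ∏ p ∈ (g k).primeFactors, (1 + ww p * √√(p : ℝ)) := by rw [prod_one_add]
          _ ≤ ∏ p ∈ (g k).primeFactors, 3 := by
              apply prod_le_prod
              · intro p hp
                have := ww_nonneg p (Nat.prime_of_mem_primeFactors hp).one_le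
                positivity
              · intro p hp
                linarith [e2 p hp]
          _ = _ := by rw [prod_const]
      have e4 := three_pow_omega d hd (g k) hg0 C0 Y hC0 hY hgY
      have e5 : √√Y * ∑ t ∈ (g k).primeFactors.powerset.filter (fun t => ¬ (E t : ℝ) ≤ Y), W t
          ≤ √√Y * (3 ^ (81 ^ d) * C0) := by
        refine (e3.trans e4).trans (le_of_eq ?_)
        ring
      exact le_of_mul_le_mul_left e5 hsY
    refine (sum_le_sum e1).trans ?_
    rw [sum_const, nsmul_eq_mul]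
    have e2 : (I.card : ℝ) ≤ C0 * Y := by
      have e3 : I ⊆ Ioc 0 ⌊C0 * Y⌋₊ := by
        intro k hk
        obtain ⟨hk0, hkY, _⟩ := hI k hk
        exact mem_Ioc.mpr ⟨hk0, Nat.le_floor hkY⟩
      have e4 := card_le_card e3
      rw [Nat.card_Ioc, Nat.sub_zero] at e4
      exact (Nat.cast_le.mpr e4).trans (Nat.floor_le (by positivity))
    calc (I.card : ℝ) * (3 ^ (81 ^ d) * C0) ≤ (C0 * Y) * (3 ^ (81 ^ d) * C0) := by gcongr
      _ = _ := by ring
  rw [add_mul]
  exact add_le_add h2 h3

end Pool.Agent.Work.MP_484fb8_nt.Poly
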