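import Pool.Agent.Work.MP_484fb8_nt.Poly.Mean
import Pool.Agent.Work.MP_484fb8_nt.Poly.SingPoly

/-!
Almost all even values of a polynomial have many representations.
-/

set_option autoImplicit false

namespace Pool.Agent.Work.MP_484fb8_nt.Poly

open Finset ArithmeticFunction Pool.Agent.SW Pool.Agent.Circle

theorem almost_all_poly (f : Polynomial ℤ) (hd : 1 ≤ f.natDegree) (hlc : 0 < f.leadingCoeff)
    (C0 : ℝ) (hC0 : 1 ≤ C0) (A B0 : ℕ) : ∃ C : ℝ, 0 < C ∧ ∃ L0 : ℝ,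
    ∀ (g : ℕ → ℕ) (N K L a b : ℕ) (Y : ℝ),
    (∀ k ∈ Ioc a b, ((g k : ℕ) : ℤ) = f.eval (k : ℤ)) → (∀ k ∈ Ioc a b, N < g k ∧ g k ≤ L) →
    0 ≤ Y → Y ^ f.natDegree = L → (b : ℝ) ≤ C0 * Y →
    L0 ≤ L → 2 * K ≤ N → N ≤ L → (L : ℝ) ≤ N * (Real.log L) ^ B0 →
    (((Ioc a b).filter (fun k => Even (g k) ∧ ∑ n ∈ Ioc K N, Λ n * Λ (g k - n) < N / 8)).card : ℝ)
      ≤ C * (Y / (Real.log L) ^ A) := by
  obtain ⟨A', hAA', C1, hC1, L1, hmean⟩ := mean_sq_poly f.natDegree hd f.leadingCoeff.toNat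
    (by omega) C0 hC0 A B0
  obtain ⟨L2, hmain⟩ := main_term A' B0
  have hf0 : f ≠ 0 := by
    intro h
    rw [h] at hlc
    simp at hlc
  obtain ⟨C3, hC3, havg⟩ := avg_T f hf0 f.natDegree hd C0 hC0
  refine ⟨64 * C1 + 6 * Real.exp 8 * C3, by positivity, max (max L1 L2) 3, ?_⟩
  intro g N K L a b Y hg hgNL hY0 hYd hbY hL0 hKN2 hNL hLN
  have hLr1 : L1 ≤ L := (le_max_left L1 L2).trans ((le_max_left _ _).trans hL0)
  have hLr2 : L2 ≤ L := (le_max_right L1 L2).trans ((le_max_left _ _).trans hL0)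
  have hL3 : (3 : ℝ) ≤ L := (le_max_right _ _).trans hL0
  have hx : 1 ≤ Real.log L := one_le_log hL3
  have hKN : K ≤ N := by omega
  have hY1 : 1 ≤ Y := by
    by_contra h
    push Not at h
    have : Y ^ f.natDegree ≤ 1 := pow_le_one₀ hY0 h.le
    linarith
  set F : Polynomial ℝ := f.map (Int.castRingHom ℝ) with hF
  have hFd : F.natDegree ≤ f.natDegree := Polynomial.natDegree_map_le
  have hFc : F.coeff f.natDegree = ((f.leadingCoeff.toNat : ℕ) : ℝ) := by
    rw [hF, Polynomial.coeff_map]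
    have h1 : ((f.leadingCoeff.toNat : ℕ) : ℤ) = f.leadingCoeff := Int.toNat_of_nonneg hlc.le
    have h2 : ((f.leadingCoeff.toNat : ℕ) : ℝ) = ((f.leadingCoeff : ℤ) : ℝ) := by
      exact_mod_cast congrArg (Int.cast : ℤ → ℝ) h1
    rw [h2]
    rfl
  have hFg : ∀ k ∈ Ioc a b, (g k : ℝ) = F.eval (k : ℝ) := by
    intro k hk
    have h1 : F.eval (k : ℝ) = ((f.eval (k : ℤ) : ℤ) : ℝ) := by
      rw [hF]
      have := Polynomial.eval_intCast_map (Int.castRingHom ℝ) f (k : ℤ)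
      simpa using this
    rw [h1, ← hg k hk]
    simp
  have hms := hmean F g N K L a b Y hFd hFc hFg (fun k hk => (hgNL k hk).2) hY0 hYd hbY hLr1 hKN
    hNL hLN
  have hmt := hmain N K L hLr2 hKN hNL hLN
  set x := Real.log L with hxdef
  have hx0 : 0 < x := by linarith
  set P := Pp A' L with hPdef
  have hP1 : 1 ≤ P := one_le_Pp A' L hx
  have hPs : x ^ (A' + 10) ≤ 3 / 2 * √(P : ℝ) := le_sqrt_Pp A' L hx
  have hNpos : 0 < N := by
    rcases Nat.eq_zero_or_pos N with h | h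
    · subst h
      simp only [Nat.cast_zero, zero_mul] at hLN
      linarith
    · exact h
  have hNr : (0 : ℝ) < N := by exact_mod_cast hNpos
  set s := √(P : ℝ) with hsdef
  have hs1 : 1 ≤ s := by rw [hsdef, Real.one_le_sqrt]; exact_mod_cast hP1
  have hs0 : 0 < s := by linarith
  set E : ℕ → ℂ := EE (Ioc K N) (Ioc 0 L) (fun n => (Λ n : ℂ)) (hQ P) with hE
  -- the two exceptional sets
  set Bad1 := (Ioc a b).filter (fun k => (N : ℝ) / 8 < ‖E (g k)‖) with hB1
  set Bad2 := (Ioc a b).filter (fun k => s < 4 * Real.exp 8 * TT (g k)) with hB2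
  have hsub : (Ioc a b).filter (fun k => Even (g k) ∧ ∑ n ∈ Ioc K N, Λ n * Λ (g k - n) < N / 8)
      ⊆ Bad1 ∪ Bad2 := by
    intro k hk
    rw [mem_filter] at hk
    obtain ⟨hkI, hev, hlt⟩ := hk
    obtain ⟨hNm, hmL⟩ := hgNL k hkI
    by_contra hnot
    rw [mem_union, not_or, hB1, hB2, mem_filter, mem_filter, not_and, not_and] at hnot
    obtain ⟨h1, h2⟩ := hnot
    have h1' := not_lt.mp (h1 hkI)
    have h2' := not_lt.mp (h2 hkI)
    set m := g k with hm
    -- the identity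
    have hEm : E m = ∑ a ∈ Ioc K N, (Λ a : ℂ) * hQ P (m - a) := by
      rw [hE]
      unfold EE
      refine sum_congr rfl fun a ha => ?_
      rw [mem_Ioc] at ha
      rw [sum_eq_single (m - a)]
      · rw [if_pos (by omega)]
      · intro b _ hb
        rw [if_neg]
        omega
      · intro hb
        exfalso
        apply hb
        rw [mem_Ioc]
        omega
    have hid : ((∑ a ∈ Ioc K N, Λ a * Λ (m - a) : ℝ) : ℂ)
        = E m + ∑ a ∈ Ioc K N, (Λ a : ℂ) * Lam P (m - a) := by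
      rw [hEm, ← sum_add_distrib]
      push_cast
      refine sum_congr rfl fun a _ => ?_
      rw [hQ]
      ring
    have h3 := hmt m hNm
    have h4 : |∑ a ∈ Ioc K N, Λ a * Λ (m - a) - ((N : ℝ) - K) * sing P m| ≤ N / 8 + N / 8 := by
      have h5 : ((∑ a ∈ Ioc K N, Λ a * Λ (m - a) - ((N : ℝ) - K) * sing P m : ℝ) : ℂ)
          = E m + (∑ a ∈ Ioc K N, (Λ a : ℂ) * Lam P (m - a) - (((N : ℝ) - K) * sing P m : ℝ)) := by
        rw [Complex.ofReal_sub, hid]
        ring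
      have h6 : |∑ a ∈ Ioc K N, Λ a * Λ (m - a) - ((N : ℝ) - K) * sing P m|
          = ‖((∑ a ∈ Ioc K N, Λ a * Λ (m - a) - ((N : ℝ) - K) * sing P m : ℝ) : ℂ)‖ := by
        rw [Complex.norm_real, Real.norm_eq_abs]
      rw [h6, h5]
      exact (norm_add_le _ _).trans (add_le_add h1' h3)
    have h5 := sing_lower' P hP1 m (by omega) hev
    have h6 : Real.exp 8 * TT m / √P ≤ 1 / 4 := by
      rw [← hsdef, div_le_iff₀ hs0]
      linarith
    have h7 : 3 / 4 ≤ sing P m := by linarith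
    have h8 : (N : ℝ) / 2 ≤ (N : ℝ) - K := by
      have : 2 * (K : ℝ) ≤ N := by exact_mod_cast hKN2
      linarith
    have h9 : (N : ℝ) / 2 * (3 / 4) ≤ ((N : ℝ) - K) * sing P m := by
      apply mul_le_mul h8 h7 (by norm_num) (by linarith)
    have h10 := abs_le.mp h4
    linarith [h10.1]
  have hcard1 : (Bad1.card : ℝ) ≤ 64 * C1 * (Y / x ^ A) := by
    have h1 : (Bad1.card : ℝ) * ((N : ℝ) / 8) ^ 2 ≤ C1 * ((N : ℝ) ^ 2 * Y / x ^ A) := by
      calc (Bad1.card : ℝ) * ((N : ℝ) / 8) ^ 2 = ∑ k ∈ Bad1, ((N : ℝ) / 8) ^ 2 := by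
            rw [sum_const, nsmul_eq_mul]
        _ ≤ ∑ k ∈ Bad1, ‖E (g k)‖ ^ 2 := by
            refine sum_le_sum fun k hk => ?_
            rw [hB1, mem_filter] at hk
            have := hk.2.le
            gcongr
        _ ≤ ∑ k ∈ Ioc a b, ‖E (g k)‖ ^ 2 :=
            sum_le_sum_of_subset_of_nonneg (filter_subset _ _) fun _ _ _ => by positivity
        _ ≤ _ := hms
    have h2 : C1 * ((N : ℝ) ^ 2 * Y / x ^ A) = (64 * C1 * (Y / x ^ A)) * ((N : ℝ) / 8) ^ 2 := by
      ring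
    rw [h2] at h1
    exact le_of_mul_le_mul_right h1 (by positivity)
  have hTT0 : ∀ m, 0 ≤ TT m := by
    intro m
    unfold TT
    refine prod_nonneg fun p hp => ?_
    have := ww_nonneg p (Nat.prime_of_mem_primeFactors hp).one_le
    linarith
  have hcard2 : (Bad2.card : ℝ) ≤ 6 * Real.exp 8 * C3 * (Y / x ^ A) := by
    have hav := havg g (Ioc a b) Y hY1 (by
      intro k hk
      have h1 := hgNL k hk
      have h2 := mem_Ioc.mp hk
      refine ⟨by omega, ?_, by omega, hg k hk, ?_⟩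
      · have : (k : ℝ) ≤ b := by exact_mod_cast h2.2
        linarith
      · rw [hYd]
        have : (g k : ℝ) ≤ L := by exact_mod_cast h1.2
        nlinarith)
    have h1 : (Bad2.card : ℝ) * s ≤ 4 * Real.exp 8 * (C3 * Y) := by
      calc (Bad2.card : ℝ) * s = ∑ k ∈ Bad2, s := by rw [sum_const, nsmul_eq_mul]
        _ ≤ ∑ k ∈ Bad2, 4 * Real.exp 8 * TT (g k) := by
            refine sum_le_sum fun k hk => ?_
            rw [hB2, mem_filter] at hk
            exact hk.2.le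
        _ ≤ ∑ k ∈ Ioc a b, 4 * Real.exp 8 * TT (g k) :=
            sum_le_sum_of_subset_of_nonneg (filter_subset _ _) fun k _ _ => by
              have := hTT0 (g k)
              positivity
        _ = 4 * Real.exp 8 * ∑ k ∈ Ioc a b, TT (g k) := by rw [mul_sum]
        _ ≤ _ := by gcongr
    have h2 : (Bad2.card : ℝ) ≤ 4 * Real.exp 8 * (C3 * Y) / s := by
      rw [le_div_iff₀ hs0]
      exact h1
    refine h2.trans ?_
    calc 4 * Real.exp 8 * (C3 * Y) / s = 4 * Real.exp 8 * C3 * Y * (1 / s) := by ring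
      _ ≤ 4 * Real.exp 8 * C3 * Y * ((3 / 2) / x ^ A) := by
          refine mul_le_mul_of_nonneg_left ?_ (by positivity)
          rw [div_le_div_iff₀ hs0 (by positivity), one_mul]
          calc x ^ A ≤ x ^ (A' + 10) := pow_le_pow_right₀ hx (by omega)
            _ ≤ _ := hPs
      _ = _ := by ring
  calc (((Ioc a b).filter (fun k => Even (g k) ∧ ∑ n ∈ Ioc K N, Λ n * Λ (g k - n) < N / 8)).card : ℝ)
      ≤ ((Bad1 ∪ Bad2).card : ℝ) := by exact_mod_cast card_le_card hsub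
    _ ≤ Bad1.card + Bad2.card := by exact_mod_cast card_union_le _ _
    _ ≤ 64 * C1 * (Y / x ^ A) + 6 * Real.exp 8 * C3 * (Y / x ^ A) := add_le_add hcard1 hcard2
    _ = _ := by ring

end Pool.Agent.Work.MP_484fb8_nt.Poly
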