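import Pool.Agent.Work.MP_484fb8_nt.DensityOne

/-!
From weighted sums over `Λ` to representations in primorial intervals.
-/

set_option autoImplicit false

namespace Pool.Agent.Work.MP_484fb8_nt.Poly

open Finset ArithmeticFunction Pool.Agent.Circle

theorem bridge : ∃ L0 : ℝ, ∀ n : ℕ, 1 ≤ n → L0 ≤ ((prml (n + 1) + 1 : ℕ) : ℝ) →
    2 * prml (n - 1) ≤ prml n / 2 ∧ prml n / 2 ≤ prml (n + 1) + 1 ∧
    (((prml (n + 1) + 1 : ℕ) : ℝ) ≤ ((prml n / 2 : ℕ) : ℝ) * (Real.log ((prml (n + 1) + 1 : ℕ) : ℝ)) ^ 3) ∧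
    ∀ m ∈ evensIn (n + 1), (primorialReps n m : ℝ) < 1 / 512 * (prml n / (Real.log (prml n)) ^ 2) →
      ∑ a ∈ Ioc (prml (n - 1)) (prml n / 2), Λ a * Λ (m - a) < ((prml n / 2 : ℕ) : ℝ) / 8 := by
  obtain ⟨L2, hL2⟩ := log_pow_eventually 5 (1 / 64) (by norm_num)
  set L0 : ℝ := max L2 (max (Real.exp 12800) (prml 3 + 2)) with hL0
  refine ⟨L0, ?_⟩
  intro n hn hLL0
  set M := prml n with hM
  set M' := prml (n + 1) with hM'
  have hM2 : 2 ≤ M := by have := le_prml n; omega
  have hMM' : 3 * M ≤ M' := by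
    rw [hM', hM, prml_succ, mul_comm 3]
    exact Nat.mul_le_mul_left _ (by have := nth_prime_ge n; omega)
  have hM'r : (6 : ℝ) ≤ M' := by exact_mod_cast (by omega : 6 ≤ M')
  have hMr : (2 : ℝ) ≤ M := by exact_mod_cast hM2
  have hlogM' : 0 < Real.log M' := Real.log_pos (by linarith)
  have hlogM : 0 < Real.log M := Real.log_pos (by linarith)
  set L := M' + 1 with hL
  have hLr2 : L2 ≤ L := (le_max_left _ _).trans hLL0
  have hLe : Real.exp 12800 ≤ L := (le_max_left _ _).trans ((le_max_right _ _).trans hLL0)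
  have hLp : (prml 3 : ℝ) + 2 ≤ L := (le_max_right _ _).trans ((le_max_right _ _).trans hLL0)
  have hn3 : 3 ≤ n := by
    by_contra h
    have h1 : prml (n + 1) ≤ prml 3 := prml_mono (by omega)
    have h2 : (prml 3 : ℝ) + 2 ≤ (prml (n + 1) : ℝ) + 1 := by
      have := hLp
      rw [hL] at this
      push_cast at this
      linarith
    have h3 : (prml (n + 1) : ℝ) ≤ prml 3 := by exact_mod_cast h1
    linarith
  set K := prml (n - 1) with hK
  set N := M / 2 with hN
  have hdvd : 2 ∣ M := two_dvd_prml n hn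
  have hN2 : 2 * N = M := by omega
  have hNr : 2 * (N : ℝ) = M := by exact_mod_cast hN2
  have hKN : 2 * K ≤ N := by
    have h1 : 4 * K ≤ M := by
      obtain ⟨k, rfl⟩ := Nat.exists_eq_add_of_le' hn
      rw [hM, hK, Nat.add_sub_cancel, prml_succ, mul_comm 4]
      exact Nat.mul_le_mul_left _ (by have := nth_prime_ge k; omega)
    omega
  have hNL : N ≤ L := by omega
  have hLr : (L : ℝ) = M' + 1 := by rw [hL]; push_cast; ring
  have hL7 : (7 : ℝ) ≤ L := by rw [hLr]; linarith
  set x := Real.log L with hx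
  have hx12800 : 12800 ≤ x := by
    rw [hx, Real.le_log_iff_exp_le (by linarith)]
    exact hLe
  have hMx : Real.log M ≤ x := by
    apply Real.log_le_log (by linarith)
    rw [hLr]
    have : 3 * (M : ℝ) ≤ M' := by exact_mod_cast hMM'
    linarith
  have hM'x : Real.log M' ≤ x := by
    apply Real.log_le_log (by linarith)
    rw [hLr]
    linarith
  -- `L ≤ N x^3`
  have hLN : (L : ℝ) ≤ N * x ^ 3 := by
    have h1 := nth_prime_upper n
    have h2 := n_le_log n hn
    rw [← hM] at h2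
    have h3 : ((n : ℝ) + 1) ^ 2 ≤ (4 * Real.log M) ^ 2 := by gcongr
    have h4 : (Nat.nth Nat.Prime n : ℝ) ≤ 3200 * x ^ 2 := by
      calc (Nat.nth Nat.Prime n : ℝ) ≤ 200 * ((n : ℝ) + 1) ^ 2 := h1
        _ ≤ 200 * (4 * Real.log M) ^ 2 := by gcongr
        _ ≤ 200 * (4 * x) ^ 2 := by gcongr
        _ = _ := by ring
    have h5 : (M' : ℝ) = M * Nat.nth Nat.Prime n := by
      rw [hM', prml_succ]
      push_cast
      ring
    calc (L : ℝ) ≤ 2 * M' := by rw [hLr]; linarith
      _ = 2 * (M * Nat.nth Nat.Prime n) := by rw [h5]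
      _ ≤ 2 * (M * (3200 * x ^ 2)) := by gcongr
      _ = N * (12800 * x ^ 2) := by rw [← hNr]; ring
      _ ≤ N * (x * x ^ 2) := by gcongr
      _ = _ := by ring
  refine ⟨hKN, hNL, hLN, ?_⟩
  intro m hmE hlt
  have hmE' := hmE
  unfold evensIn primorialInterval at hmE'
  rw [mem_filter, mem_Icc, Nat.add_sub_cancel] at hmE'
  obtain ⟨⟨hm1, hm2⟩, hev⟩ := hmE'
  by_contra hge
  push Not at hge
  have h1 := prime_pairs N K L m (by omega) (by omega) (by omega)
  have h2 := pairs_le_reps n hn m hmE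
  rw [← hK, ← hM, ← hN] at h2
  have h2r : (((Ioc K N).filter (fun p => p.Prime ∧ (m - p).Prime)).card : ℝ)
      ≤ primorialReps n m := by exact_mod_cast h2
  have h3 : 64 * (√L * x ^ 2) ≤ N := by
    have h4 := hL2 L hLr2
    rw [← hx] at h4
    have h5 : 64 * (√L * x ^ 2) * x ^ 3 ≤ N * x ^ 3 := by
      calc 64 * (√L * x ^ 2) * x ^ 3 = 64 * √L * x ^ 5 := by ring
        _ ≤ 64 * √L * (1 / 64 * √L) := by gcongr
        _ = √L * √L := by ring
        _ = L := Real.mul_self_sqrt (by linarith)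
        _ ≤ N * x ^ 3 := hLN
    exact le_of_mul_le_mul_right h5 (by positivity)
  have h6 : (N : ℝ) / 16 ≤ primorialReps n m * x ^ 2 := by
    have h7 : (((Ioc K N).filter (fun p => p.Prime ∧ (m - p).Prime)).card : ℝ) * x ^ 2
        ≤ primorialReps n m * x ^ 2 := by gcongr
    rw [← hx] at h1
    linarith
  have h8 : x ≤ 4 * Real.log M := by
    have h9 := log_prml_succ n hn
    rw [← hM, ← hM'] at h9
    have h10 : x ≤ Real.log 2 + Real.log M' := by
      rw [hx, ← Real.log_mul (by norm_num) (by linarith)]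
      apply Real.log_le_log (by linarith)
      rw [hLr]
      linarith
    have h11 : Real.log 2 ≤ Real.log M := Real.log_le_log (by norm_num) hMr
    linarith
  have h12 : x ^ 2 ≤ (4 * Real.log M) ^ 2 := by gcongr
  have h13 : (M : ℝ) / 32 ≤ primorialReps n m * (16 * (Real.log M) ^ 2) := by
    calc (M : ℝ) / 32 = N / 16 := by rw [← hNr]; ring
      _ ≤ primorialReps n m * x ^ 2 := h6
      _ ≤ primorialReps n m * (4 * Real.log M) ^ 2 := by gcongr
      _ = _ := by ring
  have h14 : 1 / 512 * (M / (Real.log M) ^ 2) ≤ primorialReps n m := by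
    rw [← mul_div_assoc, div_le_iff₀ (by positivity)]
    linarith
  linarith

end Pool.Agent.Work.MP_484fb8_nt.Poly
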