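import Mathlib

/-!
Growth of polynomials with a positive leading coefficient.
-/

set_option autoImplicit false

namespace Pool.Agent.Work.MP_484fb8_nt.Poly

open Finset Polynomial

theorem poly_asymp (P : ℝ[X]) (h : 0 < P.leadingCoeff) : ∃ x0 : ℝ, 1 ≤ x0 ∧ ∀ x : ℝ, x0 ≤ x →
    P.leadingCoeff / 2 * x ^ P.natDegree ≤ P.eval x ∧
      P.eval x ≤ 2 * P.leadingCoeff * x ^ P.natDegree := by
  have h1 := P.isEquivalent_atTop_lead
  have h2 : ((fun x => eval x P) - fun x => P.leadingCoeff * x ^ P.natDegree)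
      =o[Filter.atTop] fun x => P.leadingCoeff * x ^ P.natDegree := h1
  have h3 := h2.bound (show (0 : ℝ) < 1 / 2 by norm_num)
  rw [Filter.eventually_atTop] at h3
  obtain ⟨x0, hx0⟩ := h3
  refine ⟨max 1 x0, le_max_left _ _, ?_⟩
  intro x hx
  have h4 := hx0 x ((le_max_right _ _).trans hx)
  have hx1 : 1 ≤ x := (le_max_left _ _).trans hx
  have hpos : 0 < P.leadingCoeff * x ^ P.natDegree := by positivity
  rw [Pi.sub_apply, Real.norm_eq_abs, Real.norm_eq_abs, abs_of_pos hpos] at h4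
  have h5 := abs_le.mp h4
  constructor
  · linarith [h5.1]
  · linarith [h5.2]

theorem poly_mono (P : ℝ[X]) (h : 0 < P.leadingCoeff) (hd : 1 ≤ P.natDegree) :
    ∃ x0 : ℝ, 1 ≤ x0 ∧ StrictMonoOn (fun x => P.eval x) (Set.Ici x0) := by
  have h1 : (derivative P).natDegree = P.natDegree - 1 :=
    natDegree_derivative P
  have h2 : 0 < (derivative P).leadingCoeff := by
    rw [leadingCoeff, h1, coeff_derivative]
    have h3 : P.natDegree - 1 + 1 = P.natDegree := by omega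
    rw [h3]
    have h4 : (0 : ℝ) < ((P.natDegree - 1 : ℕ) : ℝ) + 1 := by positivity
    exact mul_pos h h4
  obtain ⟨x0, hx01, hx0⟩ := poly_asymp (derivative P) h2
  refine ⟨x0, hx01, ?_⟩
  apply strictMonoOn_of_deriv_pos (convex_Ici x0)
  · exact P.continuous.continuousOn
  · intro x hx
    rw [interior_Ici, Set.mem_Ioi] at hx
    have h3 := (hx0 x hx.le).1
    rw [Polynomial.deriv]
    refine lt_of_lt_of_le ?_ h3
    have : 0 < x := by linarith
    positivity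

theorem poly_growth (f : ℤ[X]) (hd : 1 ≤ f.natDegree) (hlc : 0 < f.leadingCoeff) :
    ∃ k0 : ℕ, 1 ≤ k0 ∧ ∃ c1 : ℝ, 0 < c1 ∧ ∃ C2 : ℝ, 1 ≤ C2 ∧
      (∀ k : ℕ, k0 ≤ k → c1 * (k : ℝ) ^ f.natDegree ≤ ((f.eval (k : ℤ) : ℤ) : ℝ) ∧
        ((f.eval (k : ℤ) : ℤ) : ℝ) ≤ C2 * (k : ℝ) ^ f.natDegree) ∧
      ∀ j k : ℕ, k0 ≤ j → j ≤ k → f.eval (j : ℤ) ≤ f.eval (k : ℤ) := by
  set F : ℝ[X] := f.map (Int.castRingHom ℝ) with hF
  have hinj : Function.Injective (Int.castRingHom ℝ) := by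
    intro a b hab
    simpa using hab
  have hFd : F.natDegree = f.natDegree := natDegree_map_eq_of_injective hinj f
  have hFlc : F.leadingCoeff = (f.leadingCoeff : ℝ) := by
    rw [hF, leadingCoeff_map_of_injective hinj]
    simp
  have hlcr : (0 : ℝ) < F.leadingCoeff := by
    rw [hFlc]
    exact_mod_cast hlc
  have hlcr1 : (1 : ℝ) ≤ F.leadingCoeff := by
    rw [hFlc]
    exact_mod_cast hlc
  have hev : ∀ k : ℕ, ((f.eval (k : ℤ) : ℤ) : ℝ) = F.eval (k : ℝ) := by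
    intro k
    rw [hF]
    simp
  obtain ⟨x0, hx01, hx0⟩ := poly_asymp F hlcr
  obtain ⟨x1, hx11, hx1⟩ := poly_mono F hlcr (by omega)
  refine ⟨⌈max x0 x1⌉₊, ?_, F.leadingCoeff / 2, by positivity, 2 * F.leadingCoeff, by linarith,
    ?_, ?_⟩
  · rw [Nat.one_le_ceil_iff]
    exact lt_of_lt_of_le one_pos (hx01.trans (le_max_left _ _))
  · intro k hk
    have h1 : max x0 x1 ≤ k := Nat.ceil_le.mp hk
    have h2 := hx0 k ((le_max_left _ _).trans h1)
    rw [hev, ← hFd]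
    exact h2
  · intro j k hj hjk
    have h1 : max x0 x1 ≤ j := Nat.ceil_le.mp hj
    have h2 : (j : ℝ) ≤ k := by exact_mod_cast hjk
    have h3 := hx1.monotoneOn (Set.mem_Ici.mpr ((le_max_right _ _).trans h1))
      (Set.mem_Ici.mpr (((le_max_right _ _).trans h1).trans h2)) h2
    have h3 : F.eval (j : ℝ) ≤ F.eval (k : ℝ) := h3
    rw [← hev, ← hev] at h3
    exact_mod_cast h3

end Pool.Agent.Work.MP_484fb8_nt.Poly
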