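import Pool.Agent.Work.MP_484fb8_nt.Poly.Almost
import Pool.Agent.Work.MP_484fb8_nt.Poly.Bridge
import Pool.Agent.Work.MP_484fb8_nt.Poly.Growth

/-!
Almost all values of an integer polynomial.
-/

set_option autoImplicit false

namespace Pool.Agent.Work.MP_484fb8_nt.Poly

open Finset ArithmeticFunction Pool.Agent.SW Pool.Agent.Circle

/-- `k` is bad for `f`: the value `f(k)` is an even number in a primorial interval with few
representations. -/
def BadAt (f : Polynomial ℤ) (n k : ℕ) : Prop :=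
  ∃ m ∈ evensIn (n + 1), f.eval (k : ℤ) = (m : ℤ) ∧
    (primorialReps n m : ℝ) < 1 / 512 * (prml n / (Real.log (prml n)) ^ 2)

open scoped Classical in
/-- One primorial interval. -/
theorem one_interval (f : Polynomial ℤ) (hd : 1 ≤ f.natDegree) (hlc : 0 < f.leadingCoeff)
    (k0 : ℕ) (c1 : ℝ) (hc1 : 0 < c1)
    (hlow : ∀ k : ℕ, k0 ≤ k → c1 * (k : ℝ) ^ f.natDegree ≤ ((f.eval (k : ℤ) : ℤ) : ℝ))
    (hmono : ∀ j k : ℕ, k0 ≤ j → j ≤ k → f.eval (j : ℤ) ≤ f.eval (k : ℤ)) (A : ℕ) :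
    ∃ C : ℝ, 0 < C ∧ ∃ L0 : ℝ, ∀ n k1 X : ℕ, 1 ≤ n → k0 ≤ k1 + 1 → ∀ Y : ℝ, 0 ≤ Y →
      Y ^ f.natDegree = ((prml (n + 1) + 1 : ℕ) : ℝ) → L0 ≤ ((prml (n + 1) + 1 : ℕ) : ℝ) →
      (((Ioc k1 X).filter (fun k => BadAt f n k)).card : ℝ)
        ≤ C * (Y / (Real.log ((prml (n + 1) + 1 : ℕ) : ℝ)) ^ A) := by
  obtain ⟨L1, hbridge⟩ := bridge
  set C0 : ℝ := max 1 (1 / c1) with hC0
  have hC01 : 1 ≤ C0 := le_max_left _ _
  obtain ⟨C, hC, L2, haa⟩ := almost_all_poly f hd hlc C0 hC01 A 3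
  refine ⟨C, hC, max (max L1 L2) 3, ?_⟩
  intro n k1 X hn hk1 Y hY0 hYd hL0
  have hL1 : L1 ≤ ((prml (n + 1) + 1 : ℕ) : ℝ) := (le_max_left L1 L2).trans ((le_max_left _ _).trans hL0)
  have hL2 : L2 ≤ ((prml (n + 1) + 1 : ℕ) : ℝ) := (le_max_right L1 L2).trans ((le_max_left _ _).trans hL0)
  have hL3 : (3 : ℝ) ≤ ((prml (n + 1) + 1 : ℕ) : ℝ) := (le_max_right _ _).trans hL0
  obtain ⟨hKN, hNL, hLN, hbr⟩ := hbridge n hn hL1
  set L := prml (n + 1) + 1 with hL
  have hlog : 1 ≤ Real.log L := one_le_log hL3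
  set S := (Ioc k1 X).filter (fun k : ℕ => ((prml n + 1 : ℕ) : ℤ) ≤ f.eval (k : ℤ) ∧
    f.eval (k : ℤ) ≤ ((prml (n + 1) + 1 : ℕ) : ℤ)) with hS
  have hsubS : (Ioc k1 X).filter (fun k => BadAt f n k) ⊆ S := by
    intro k hk
    rw [mem_filter] at hk
    obtain ⟨hkI, m, hm, hfm, _⟩ := hk
    rw [hS, mem_filter]
    unfold evensIn primorialInterval at hm
    rw [mem_filter, mem_Icc, Nat.add_sub_cancel] at hm
    refine ⟨hkI, ?_, ?_⟩
    · rw [hfm]
      exact_mod_cast hm.1.1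
    · rw [hfm]
      exact_mod_cast hm.1.2
  rcases S.eq_empty_or_nonempty with hSe | hSne
  · have : (Ioc k1 X).filter (fun k => BadAt f n k) = ∅ := by
      rw [← subset_empty, ← hSe]
      exact hsubS
    rw [this, card_empty, Nat.cast_zero]
    positivity
  set lo := S.min' hSne with hlo
  set hi := S.max' hSne with hhi
  have hloS := min'_mem S hSne
  have hhiS := max'_mem S hSne
  rw [← hlo] at hloS
  rw [← hhi] at hhiS
  rw [hS, mem_filter, mem_Ioc] at hloS hhiS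
  set g : ℕ → ℕ := fun k => (f.eval (k : ℤ)).toNat with hg
  have hrange : ∀ k ∈ Ioc (lo - 1) hi, ((prml n + 1 : ℕ) : ℤ) ≤ f.eval (k : ℤ) ∧
      f.eval (k : ℤ) ≤ ((prml (n + 1) + 1 : ℕ) : ℤ) := by
    intro k hk
    rw [mem_Ioc] at hk
    have e1 := hmono lo k (by omega) (by omega)
    have e2 := hmono k hi (by omega) hk.2
    exact ⟨hloS.2.1.trans e1, e2.trans hhiS.2.2⟩
  have hgf : ∀ k ∈ Ioc (lo - 1) hi, ((g k : ℕ) : ℤ) = f.eval (k : ℤ) := by
    intro k hk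
    have e1 := (hrange k hk).1
    rw [hg]
    apply Int.toNat_of_nonneg
    have : (0 : ℤ) ≤ ((prml n + 1 : ℕ) : ℤ) := by positivity
    omega
  have hgNL : ∀ k ∈ Ioc (lo - 1) hi, prml n / 2 < g k ∧ g k ≤ L := by
    intro k hk
    have e1 := hrange k hk
    have e2 := hgf k hk
    rw [← e2] at e1
    have e3 : prml n + 1 ≤ g k := by exact_mod_cast e1.1
    have e4 : g k ≤ prml (n + 1) + 1 := by exact_mod_cast e1.2
    exact ⟨by omega, e4⟩
  have hbY : (hi : ℝ) ≤ C0 * Y := by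
    have e1 : (hi : ℝ) ^ f.natDegree ≤ (C0 * Y) ^ f.natDegree := by
      have e2 := hlow hi (by omega)
      have e3 : ((f.eval (hi : ℤ) : ℤ) : ℝ) ≤ (L : ℝ) := by
        have := hhiS.2.2
        rw [← hL] at this
        have e4 : ((f.eval (hi : ℤ) : ℤ) : ℝ) ≤ (((L : ℕ) : ℤ) : ℝ) := by exact_mod_cast this
        simpa using e4
      have e4 : (hi : ℝ) ^ f.natDegree ≤ 1 / c1 * L := by
        rw [one_div, ← div_eq_inv_mul, le_div_iff₀ hc1]
        linarith
      calc (hi : ℝ) ^ f.natDegree ≤ 1 / c1 * L := e4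
        _ ≤ C0 * L := by
            gcongr
            exact le_max_right _ _
        _ ≤ C0 ^ f.natDegree * L := by
            gcongr
            exact le_self_pow₀ hC01 (by omega)
        _ = _ := by rw [mul_pow, hYd]
    exact le_of_pow_le_pow_left₀ (by omega) (by positivity) e1
  have hmain := haa g (prml n / 2) (prml (n - 1)) L (lo - 1) hi Y hgf hgNL hY0 hYd hbY hL2 hKN hNL hLN
  refine le_trans ?_ hmain
  have hsub : (Ioc k1 X).filter (fun k => BadAt f n k)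
      ⊆ (Ioc (lo - 1) hi).filter (fun k => Even (g k) ∧
        ∑ n_1 ∈ Ioc (prml (n - 1)) (prml n / 2), Λ n_1 * Λ (g k - n_1) < ((prml n / 2 : ℕ) : ℝ) / 8) := by
    intro k hk
    have hkS := hsubS hk
    have e1 := min'_le S k hkS
    have e2 := le_max' S k hkS
    rw [← hlo] at e1
    rw [← hhi] at e2
    rw [mem_filter] at hk
    obtain ⟨hkI, m, hm, hfm, hlt⟩ := hk
    rw [mem_Ioc] at hkI
    have hkI' : k ∈ Ioc (lo - 1) hi := by
      rw [mem_Ioc]
      omega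
    have hgm : g k = m := by
      have := hgf k hkI'
      rw [hfm] at this
      exact_mod_cast this
    rw [mem_filter]
    refine ⟨hkI', ?_, ?_⟩
    · rw [hgm]
      unfold evensIn at hm
      rw [mem_filter] at hm
      exact hm.2
    · rw [hgm]
      exact hbr m hm hlt
  exact_mod_cast card_le_card hsub

end Pool.Agent.Work.MP_484fb8_nt.Poly
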