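import Pool.Agent.Work.MP_484fb8_nt.Poly.IntPoly

/-!
Almost all values of an integer polynomial, all primorial intervals together.
-/

set_option autoImplicit false

namespace Pool.Agent.Work.MP_484fb8_nt.Poly

open Finset ArithmeticFunction Pool.Agent.SW Pool.Agent.Circle

open scoped Classical in
theorem poly_int (f : Polynomial ℤ) (hd : 1 ≤ f.natDegree) (hlc : 0 < f.leadingCoeff) (A : ℕ) :
    ∃ C : ℝ, 0 < C ∧ ∀ X : ℕ, 2 ≤ X →
      (((Ioc 0 X).filter (fun k => ∃ n, 1 ≤ n ∧ BadAt f n k)).card : ℝ)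
        ≤ C * (X / (Real.log X) ^ A) := by
  obtain ⟨k0, hk01, c1, hc1, C2, hC2, hgrow, hmono⟩ := poly_growth f hd hlc
  obtain ⟨C, hC, L0, hone⟩ := one_interval f hd hlc k0 c1 hc1 (fun k hk => (hgrow k hk).1) hmono
    (A + 4)
  obtain ⟨X1, hX1⟩ := log_pow_eventually A 1 one_pos
  set d := f.natDegree with hdd
  set C5 : ℝ := Real.log C2 + d with hC5
  have hlogC2 : 0 ≤ Real.log C2 := Real.log_nonneg hC2
  have hd1 : (1 : ℝ) ≤ d := by exact_mod_cast hd
  have hC51 : 1 ≤ C5 := by linarith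
  set X0 : ℝ := max (max X1 3) (max (max ((k0 : ℝ) ^ 2) ((L0 / c1) ^ 2)) ((1 / c1) ^ 4)) with hX0
  have hX03 : 3 ≤ X0 := (le_max_right _ _).trans (le_max_left _ _)
  set C' : ℝ := 1 + 5 * C5 * (C * (6400 * C2 * C5 ^ 2 * 4 ^ (A + 4))) with hC'
  have hlogX0 : 1 ≤ Real.log X0 := one_le_log hX03
  refine ⟨C' + (Real.log X0) ^ A, by positivity, ?_⟩
  intro X hX2
  have hXr : (2 : ℝ) ≤ X := by exact_mod_cast hX2
  have hlogX : 0 < Real.log X := Real.log_pos (by linarith)
  have hC'0 : 0 < C' := by positivity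
  by_cases hXX0 : (X : ℝ) < X0
  · -- small `X`
    have h1 : (((Ioc 0 X).filter (fun k => ∃ n, 1 ≤ n ∧ BadAt f n k)).card : ℝ) ≤ X := by
      have h2 := card_filter_le (Ioc 0 X) (fun k => ∃ n, 1 ≤ n ∧ BadAt f n k)
      rw [Nat.card_Ioc, Nat.sub_zero] at h2
      exact_mod_cast h2
    refine h1.trans ?_
    rw [← mul_div_assoc, le_div_iff₀ (by positivity)]
    have h2 : (Real.log X) ^ A ≤ (Real.log X0) ^ A := by
      apply pow_le_pow_left₀ hlogX.le
      exact Real.log_le_log (by linarith) hXX0.le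
    have h3 : (0 : ℝ) ≤ X := by linarith
    nlinarith
  push Not at hXX0
  have hXX1 : X1 ≤ X := (le_max_left _ _).trans ((le_max_left _ _).trans hXX0)
  have hX3 : (3 : ℝ) ≤ X := hX03.trans hXX0
  have hXk0 : (k0 : ℝ) ^ 2 ≤ X :=
    (le_max_left _ _).trans ((le_max_left _ _).trans ((le_max_right _ _).trans hXX0))
  have hXL0 : (L0 / c1) ^ 2 ≤ X :=
    (le_max_right _ _).trans ((le_max_left _ _).trans ((le_max_right _ _).trans hXX0))
  have hXc1 : (1 / c1) ^ 4 ≤ X := (le_max_right _ _).trans ((le_max_right _ _).trans hXX0)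
  set x := Real.log X with hx
  have hx1 : 1 ≤ x := one_le_log hX3
  have hx0 : 0 < x := by linarith
  have hX0r : (0 : ℝ) < X := by linarith
  have hpow : x ^ A ≤ √(X : ℝ) := by
    have := hX1 X hXX1
    rwa [one_mul] at this
  have hsX0 : 0 < √(X : ℝ) := Real.sqrt_pos.mpr hX0r
  have hsXX : √(X : ℝ) * √X = X := Real.mul_self_sqrt hX0r.le
  have hsk0 : (k0 : ℝ) ≤ √X := Real.le_sqrt_of_sq_le hXk0
  have hsL0 : L0 ≤ c1 * √X := by
    have h1 : L0 / c1 ≤ √X := Real.le_sqrt_of_sq_le hXL0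
    rw [div_le_iff₀ hc1] at h1
    linarith
  have hsX1 : 1 ≤ √(X : ℝ) := by
    rw [Real.one_le_sqrt]
    linarith
  have hssX : √√(X : ℝ) ≤ c1 * √X := by
    have h1 : 1 / c1 ≤ √√(X : ℝ) := by
      apply Real.le_sqrt_of_sq_le
      apply Real.le_sqrt_of_sq_le
      have e1 : ((1 / c1) ^ 2) ^ 2 = (1 / c1) ^ 4 := by ring
      rw [e1]
      exact hXc1
    rw [div_le_iff₀ hc1] at h1
    have h2 : √√(X : ℝ) * √√(X : ℝ) = √X := Real.mul_self_sqrt hsX0.le
    have h3 : 0 < √√(X : ℝ) := Real.sqrt_pos.mpr hsX0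
    calc √√(X : ℝ) = 1 * √√(X : ℝ) := (one_mul _).symm
      _ ≤ (√√(X : ℝ) * c1) * √√(X : ℝ) := by gcongr
      _ = c1 * (√√(X : ℝ) * √√(X : ℝ)) := by ring
      _ = c1 * √X := by rw [h2]
  set k1 := ⌊√(X : ℝ)⌋₊ with hk1
  have hk1le : (k1 : ℝ) ≤ √X := Nat.floor_le hsX0.le
  have hk1lt : √(X : ℝ) < k1 + 1 := Nat.lt_floor_add_one _
  have hk0k1 : k0 ≤ k1 + 1 := by
    have : (k0 : ℝ) < ((k1 + 1 : ℕ) : ℝ) := by
      push_cast
      linarith
    exact_mod_cast this.le
  set M : ℕ := ⌊4 * C5 * x⌋₊ + 1 with hM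
  -- every bad `k > k1` belongs to one of the first `M` intervals
  have hfacts : ∀ n k : ℕ, 1 ≤ n → k ∈ Ioc k1 X → BadAt f n k →
      c1 * √X ≤ ((prml (n + 1) + 1 : ℕ) : ℝ) ∧ (prml n : ℝ) ≤ C2 * (X : ℝ) ^ d := by
    intro n k hn hk hbad
    rw [mem_Ioc] at hk
    obtain ⟨m, hm, hfm, _⟩ := hbad
    unfold evensIn primorialInterval at hm
    rw [mem_filter, mem_Icc, Nat.add_sub_cancel] at hm
    have hg := hgrow k (by omega)
    rw [hfm] at hg
    have hkr : √(X : ℝ) ≤ k := by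
      have : ((k1 + 1 : ℕ) : ℝ) ≤ k := by exact_mod_cast hk.1
      push_cast at this
      linarith
    have hk1' : (1 : ℝ) ≤ k := hsX1.trans hkr
    have hm0 : (((m : ℕ) : ℤ) : ℝ) = (m : ℝ) := by simp
    rw [hm0] at hg
    constructor
    · calc c1 * √X ≤ c1 * (k : ℝ) ^ d := by
            gcongr
            exact hkr.trans (le_self_pow₀ hk1' (by omega))
        _ ≤ m := hg.1
        _ ≤ _ := by exact_mod_cast hm.1.2
    · calc (prml n : ℝ) ≤ m := by exact_mod_cast (by omega : prml n ≤ m)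
        _ ≤ C2 * (k : ℝ) ^ d := hg.2
        _ ≤ C2 * (X : ℝ) ^ d := by
            have : (k : ℝ) ≤ X := by exact_mod_cast hk.2
            gcongr
  have hlogprml : ∀ n : ℕ, 1 ≤ n → (prml n : ℝ) ≤ C2 * (X : ℝ) ^ d →
      Real.log (prml n) ≤ C5 * x := by
    intro n hn h
    have h1 : 2 ≤ prml n := by have := le_prml n; omega
    have h2 : (0 : ℝ) < prml n := by exact_mod_cast (by omega : 0 < prml n)
    calc Real.log (prml n) ≤ Real.log (C2 * (X : ℝ) ^ d) := Real.log_le_log h2 h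
      _ = Real.log C2 + d * x := by
          rw [Real.log_mul (by positivity) (by positivity), Real.log_pow]
      _ ≤ Real.log C2 * x + d * x := by
          have : Real.log C2 ≤ Real.log C2 * x := le_mul_of_one_le_right hlogC2 hx1
          linarith
      _ = _ := by rw [hC5]; ring
  have hsub : (Ioc 0 X).filter (fun k => ∃ n, 1 ≤ n ∧ BadAt f n k)
      ⊆ Ioc 0 k1 ∪ ((range M).filter (fun n => 1 ≤ n)).biUnion
        (fun n => (Ioc k1 X).filter (fun k => BadAt f n k)) := by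
    intro k hk
    rw [mem_filter, mem_Ioc] at hk
    obtain ⟨⟨hk0, hkX⟩, n, hn, hbad⟩ := hk
    rw [mem_union]
    rcases Nat.lt_or_ge k1 k with h | h
    · right
      rw [mem_biUnion]
      have hkI : k ∈ Ioc k1 X := mem_Ioc.mpr ⟨h, hkX⟩
      have hf := hfacts n k hn hkI hbad
      refine ⟨n, ?_, mem_filter.mpr ⟨hkI, hbad⟩⟩
      rw [mem_filter, mem_range]
      refine ⟨?_, hn⟩
      have e1 := n_le_log n hn
      have e2 := hlogprml n hn hf.2
      have e3 : (n : ℝ) ≤ 4 * C5 * x := by linarith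
      have e4 := Nat.le_floor e3
      omega
    · left
      exact mem_Ioc.mpr ⟨hk0, h⟩
  -- one interval
  have hone' : ∀ n ∈ (range M).filter (fun n => 1 ≤ n),
      (((Ioc k1 X).filter (fun k => BadAt f n k)).card : ℝ)
        ≤ C * (6400 * C2 * C5 ^ 2 * 4 ^ (A + 4)) * (X / x ^ (A + 2)) := by
    intro n hn
    rw [mem_filter] at hn
    rcases ((Ioc k1 X).filter (fun k => BadAt f n k)).eq_empty_or_nonempty with he | ⟨k, hk⟩
    · rw [he, card_empty, Nat.cast_zero]
      positivity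
    rw [mem_filter] at hk
    obtain ⟨hLlow, hprml⟩ := hfacts n k hn.2 hk.1 hk.2
    set L := prml (n + 1) + 1 with hL
    have hL0 : L0 ≤ (L : ℝ) := hsL0.trans hLlow
    set Y : ℝ := (L : ℝ) ^ ((d : ℝ)⁻¹) with hY
    have hY0 : 0 ≤ Y := by positivity
    have hYd : Y ^ d = (L : ℝ) := Real.rpow_inv_natCast_pow (Nat.cast_nonneg _) (by omega)
    refine (hone n k1 X hn.2 hk0k1 Y hY0 hYd hL0).trans ?_
    -- the logarithm
    have hlogL : x / 4 ≤ Real.log L := by
      have e1 : √√(X : ℝ) ≤ L := hssX.trans hLlow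
      have e2 : Real.log (√√(X : ℝ)) = x / 4 := by
        rw [Real.log_sqrt hsX0.le, Real.log_sqrt hX0r.le]
        ring
      rw [← e2]
      exact Real.log_le_log (Real.sqrt_pos.mpr hsX0) e1
    -- the length
    have hprml0 : (0 : ℝ) ≤ prml n := Nat.cast_nonneg _
    have hLup : (L : ℝ) ≤ (6400 * C2 * C5 ^ 2 * x ^ 2) * (X : ℝ) ^ d := by
      have e1 := nth_prime_upper n
      have e2 := n_le_log n hn.2
      have e3 := hlogprml n hn.2 hprml
      have e4 : ((n : ℝ) + 1) ^ 2 ≤ (4 * (C5 * x)) ^ 2 := by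
        have : (n : ℝ) + 1 ≤ 4 * (C5 * x) := by linarith
        gcongr
      have e5 : (L : ℝ) = prml n * Nat.nth Nat.Prime n + 1 := by
        rw [hL, prml_succ]
        push_cast
        ring
      have e6 : (1 : ℝ) ≤ prml n * Nat.nth Nat.Prime n := by
        have e7 : 1 ≤ prml n * Nat.nth Nat.Prime n := by
          have := prml_pos n
          have := nth_prime_ge n
          exact Nat.mul_pos (by omega) (by omega)
        exact_mod_cast e7
      calc (L : ℝ) ≤ 2 * (prml n * Nat.nth Nat.Prime n) := by rw [e5]; linarith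
        _ ≤ 2 * (prml n * (200 * ((n : ℝ) + 1) ^ 2)) := by gcongr
        _ ≤ 2 * (prml n * (200 * (4 * (C5 * x)) ^ 2)) := by gcongr
        _ ≤ 2 * ((C2 * (X : ℝ) ^ d) * (200 * (4 * (C5 * x)) ^ 2)) := by gcongr
        _ = _ := by ring
    set t : ℝ := 6400 * C2 * C5 ^ 2 * x ^ 2 with ht
    have ht1 : 1 ≤ t := by
      have e1 : 1 ≤ C5 ^ 2 := one_le_pow₀ hC51
      have e2 : 1 ≤ x ^ 2 := one_le_pow₀ hx1
      have e3 : 1 ≤ 6400 * C2 := by linarith
      exact one_le_mul_of_one_le_of_one_le (one_le_mul_of_one_le_of_one_le e3 e1) e2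
    have hYle : Y ≤ t * X := by
      have e1 : Y ^ d ≤ (t * X) ^ d := by
        rw [hYd, mul_pow]
        refine hLup.trans ?_
        gcongr
        exact le_self_pow₀ ht1 (by omega)
      exact le_of_pow_le_pow_left₀ (by omega) (by positivity) e1
    calc C * (Y / (Real.log L) ^ (A + 4)) ≤ C * ((t * X) / (x / 4) ^ (A + 4)) := by gcongr
      _ = C * (6400 * C2 * C5 ^ 2 * 4 ^ (A + 4)) * (X * x ^ 2 / x ^ (A + 4)) := by
          rw [ht, div_pow]
          field_simp
      _ = C * (6400 * C2 * C5 ^ 2 * 4 ^ (A + 4)) * (X / x ^ (A + 2)) := by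
          congr 1
          rw [div_eq_div_iff (by positivity) (by positivity)]
          ring
  have hMle : (M : ℝ) ≤ 5 * C5 * x := by
    have e1 : (⌊4 * C5 * x⌋₊ : ℝ) ≤ 4 * C5 * x := Nat.floor_le (by positivity)
    have e2 : 1 ≤ C5 * x := one_le_mul_of_one_le_of_one_le hC51 hx1
    rw [hM]
    push_cast
    linarith
  have hk1X : (k1 : ℝ) ≤ X / x ^ A := by
    rw [le_div_iff₀ (by positivity)]
    calc (k1 : ℝ) * x ^ A ≤ √X * √X := by gcongr
      _ = X := hsXX
  calc (((Ioc 0 X).filter (fun k => ∃ n, 1 ≤ n ∧ BadAt f n k)).card : ℝ)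
      ≤ ((Ioc 0 k1 ∪ ((range M).filter (fun n => 1 ≤ n)).biUnion
        (fun n => (Ioc k1 X).filter (fun k => BadAt f n k))).card : ℝ) := by
        exact_mod_cast card_le_card hsub
    _ ≤ (k1 : ℝ) + ∑ n ∈ (range M).filter (fun n => 1 ≤ n),
        (((Ioc k1 X).filter (fun k => BadAt f n k)).card : ℝ) := by
        have e1 := card_union_le (Ioc 0 k1) (((range M).filter (fun n => 1 ≤ n)).biUnion
          (fun n => (Ioc k1 X).filter (fun k => BadAt f n k)))
        have e2 := card_biUnion_le (s := (range M).filter (fun n => 1 ≤ n))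
          (t := fun n => (Ioc k1 X).filter (fun k => BadAt f n k))
        rw [Nat.card_Ioc, Nat.sub_zero] at e1
        exact_mod_cast e1.trans (Nat.add_le_add_left e2 _)
    _ ≤ X / x ^ A + ∑ n ∈ (range M).filter (fun n => 1 ≤ n),
        C * (6400 * C2 * C5 ^ 2 * 4 ^ (A + 4)) * (X / x ^ (A + 2)) := by
        gcongr with n hn
        exact hone' n hn
    _ ≤ X / x ^ A + M * (C * (6400 * C2 * C5 ^ 2 * 4 ^ (A + 4)) * (X / x ^ (A + 2))) := by
        rw [sum_const, nsmul_eq_mul]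
        have e1 : (((range M).filter (fun n => 1 ≤ n)).card : ℝ) ≤ M := by
          have := card_filter_le (range M) (fun n => 1 ≤ n)
          rw [card_range] at this
          exact_mod_cast this
        gcongr
    _ ≤ X / x ^ A + (5 * C5 * x) * (C * (6400 * C2 * C5 ^ 2 * 4 ^ (A + 4)) * (X / x ^ (A + 2))) := by
        gcongr
    _ = X / x ^ A + 5 * C5 * (C * (6400 * C2 * C5 ^ 2 * 4 ^ (A + 4))) * (X * x / x ^ (A + 2)) := by
        ring
    _ ≤ X / x ^ A + 5 * C5 * (C * (6400 * C2 * C5 ^ 2 * 4 ^ (A + 4))) * (X / x ^ A) := by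
        have e1 : (X : ℝ) * x / x ^ (A + 2) ≤ X / x ^ A := by
          rw [div_le_div_iff₀ (by positivity) (by positivity)]
          calc (X : ℝ) * x * x ^ A = X * x ^ (A + 1) := by ring
            _ ≤ X * x ^ (A + 2) := by
                have hp : x ^ (A + 1) ≤ x ^ (A + 2) := pow_le_pow_right₀ hx1 (by omega)
                gcongr
        gcongr
    _ = C' * (X / x ^ A) := by rw [hC']; ring
    _ ≤ (C' + (Real.log X0) ^ A) * (X / x ^ A) := by
        gcongr
        have : 0 ≤ (Real.log X0) ^ A := by positivity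
        linarith

end Pool.Agent.Work.MP_484fb8_nt.Poly
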