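import Pool.Agent.Work.MP_484fb8_nt.Poly.Weyl

/-!
The number of sampled frequencies where a Weyl sum is large.
-/

set_option autoImplicit false

namespace Pool.Agent.Work.MP_484fb8_nt.Poly

open Finset Pool.Agent.Circle Polynomial

theorem meas (d : ℕ) (hd : 1 ≤ d) : ∃ C1 : ℝ, 1 ≤ C1 ∧ ∃ c : ℕ, ∀ (F : ℝ[X]) (g : ℕ → ℕ)
    (A a b K R : ℕ) (δ : ℝ), F.natDegree ≤ d → F.coeff d = A → 0 < A →
    (∀ k ∈ Ioc a b, (g k : ℝ) = F.eval (k : ℝ)) → b ≤ a + K → 0 < K → 0 < R → 0 < δ → δ ≤ 1 →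
    ∀ j : ℕ, (((range R).filter (fun i : ℕ =>
      δ * K < ‖∑ k ∈ Ioc a b, e (g k * (((i : ℝ) - j) / R))‖)).card : ℝ)
      ≤ (C1 * (1 / δ) ^ c) ^ 2 * (6 * R / (K : ℝ) ^ d + 3 * A) := by
  obtain ⟨C1, hC1, c, hC⟩ := weyl d hd
  refine ⟨C1, hC1, c, ?_⟩
  intro F g A a b K R δ hF hFA hA hg hb hK hR hδ hδ1 j
  set Q : ℝ := C1 * (1 / δ) ^ c with hQ
  have hu1 : 1 ≤ 1 / δ := by rw [le_div_iff₀ hδ]; linarith
  have hQ1 : 1 ≤ Q := one_le_mul_of_one_le_of_one_le hC1 (one_le_pow₀ hu1)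
  have hQ0 : 0 < Q := by linarith
  have hKr : (0 : ℝ) < K := by exact_mod_cast hK
  have hRr : (0 : ℝ) < R := by exact_mod_cast hR
  have hAr : (1 : ℝ) ≤ A := by exact_mod_cast hA
  set ε : ℝ := Q / (K : ℝ) ^ d with hε
  have hε0 : 0 ≤ ε := by positivity
  have hsub : (range R).filter (fun i : ℕ =>
      δ * K < ‖∑ k ∈ Ioc a b, e (g k * (((i : ℝ) - j) / R))‖)
      ⊆ (Ioc 0 ⌊Q⌋₊).biUnion (fun q => (range (R + 1)).filter
        (fun i : ℕ => dn (-(q * A * j / R) + i * (q * A / R)) ≤ ε)) := by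
    intro i hi
    rw [mem_filter] at hi
    have h1 := hC (C (((i : ℝ) - j) / R) * F) a b K δ
      ((natDegree_C_mul_le _ _).trans hF) hδ hδ1 hK hb (by
        refine hi.2.le.trans (le_of_eq ?_)
        congr 1
        refine sum_congr rfl fun k hk => ?_
        rw [hg k hk, eval_mul, eval_C, mul_comm])
    obtain ⟨q, hq0, hqQ, hqdn⟩ := h1
    rw [mem_biUnion]
    refine ⟨q, mem_Ioc.mpr ⟨hq0, Nat.le_floor hqQ⟩, ?_⟩
    rw [mem_filter, mem_range]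
    refine ⟨by have := mem_range.mp hi.1; omega, ?_⟩
    rw [coeff_C_mul, hFA] at hqdn
    refine le_trans (le_of_eq ?_) hqdn
    congr 1
    ring
  have hcard : ∀ q ∈ Ioc 0 ⌊Q⌋₊, (((range (R + 1)).filter
        (fun i : ℕ => dn (-(q * A * j / R) + i * (q * A / R)) ≤ ε)).card : ℝ)
        ≤ 6 * ε * R + 3 * Q * A := by
    intro q hq
    rw [mem_Ioc] at hq
    have hq1 : (1 : ℝ) ≤ q := by exact_mod_cast hq.1
    have hqQ : (q : ℝ) ≤ Q := (Nat.cast_le.mpr hq.2).trans (Nat.floor_le hQ0.le)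
    have hqA : 0 < (q : ℝ) * A := by positivity
    have hqA1 : 1 ≤ (q : ℝ) * A := one_le_mul_of_one_le_of_one_le hq1 hAr
    refine (count_pos R _ (q * A / R) ε (by positivity) hε0).trans ?_
    have h1 : (R : ℝ) * (q * A / R) + 2 = q * A + 2 := by field_simp
    have h2 : 2 * ε / ((q : ℝ) * A / R) + 1 = 2 * ε * R / (q * A) + 1 := by field_simp
    rw [h1, h2]
    calc ((q : ℝ) * A + 2) * (2 * ε * R / (q * A) + 1)
        ≤ (3 * ((q : ℝ) * A)) * (2 * ε * R / (q * A) + 1) := by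
          gcongr
          linarith
      _ = 6 * ε * R + 3 * q * A := by
          field_simp
          ring
      _ ≤ 6 * ε * R + 3 * Q * A := by gcongr
  calc (((range R).filter (fun i : ℕ =>
      δ * K < ‖∑ k ∈ Ioc a b, e (g k * (((i : ℝ) - j) / R))‖)).card : ℝ)
      ≤ (((Ioc 0 ⌊Q⌋₊).biUnion (fun q => (range (R + 1)).filter
        (fun i : ℕ => dn (-(q * A * j / R) + i * (q * A / R)) ≤ ε))).card : ℝ) := by
        exact_mod_cast card_le_card hsub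
    _ ≤ ∑ q ∈ Ioc 0 ⌊Q⌋₊, (((range (R + 1)).filter
        (fun i : ℕ => dn (-(q * A * j / R) + i * (q * A / R)) ≤ ε)).card : ℝ) := by
        exact_mod_cast card_biUnion_le
    _ ≤ ∑ q ∈ Ioc 0 ⌊Q⌋₊, (6 * ε * R + 3 * Q * A) := sum_le_sum hcard
    _ = (⌊Q⌋₊ : ℝ) * (6 * ε * R + 3 * Q * A) := by
        rw [sum_const, Nat.card_Ioc, nsmul_eq_mul, Nat.sub_zero]
    _ ≤ Q * (6 * ε * R + 3 * Q * A) := by
        gcongr
        exact Nat.floor_le hQ0.le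
    _ = Q ^ 2 * (6 * R / (K : ℝ) ^ d + 3 * A) := by
        rw [hε]
        ring

end Pool.Agent.Work.MP_484fb8_nt.Poly
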