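import Pool.Agent.Work.Circle.CircleIneq

/-!
The mean square of a convolution over a thin sequence.
-/

set_option autoImplicit false

namespace Pool.Agent.Work.MP_484fb8_nt.Poly

open Finset Pool.Agent.Circle

/-- The Fourier transform of the convolution. -/
noncomputable def FF (R : ℕ) (S T : Finset ℕ) (f h : ℕ → ℂ) (i : ℕ) : ℂ :=
  (∑ a ∈ S, f a * e (a * ((i : ℝ) / R))) * ∑ b ∈ T, h b * e (b * ((i : ℝ) / R))

/-- The convolution. -/
noncomputable def EE (S T : Finset ℕ) (f h : ℕ → ℂ) (m : ℕ) : ℂ :=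
  ∑ a ∈ S, ∑ b ∈ T, if a + b = m then f a * h b else 0

theorem EE_eq (R : ℕ) (hR : 0 < R) (S T : Finset ℕ)
    (hST : ∀ a ∈ S, ∀ b ∈ T, a + b < R) (f h : ℕ → ℂ) (m : ℕ) (hm : m < R) :
    (R : ℂ) * EE S T f h m = ∑ i ∈ range R, FF R S T f h i * e (-(m * ((i : ℝ) / R))) := by
  have h0 : ∑ i ∈ range R, FF R S T f h i * e (-(m * ((i : ℝ) / R)))
      = ∑ a ∈ S, ∑ b ∈ T, ∑ i ∈ range R, f a * e (a * ((i : ℝ) / R)) * (h b * e (b * ((i : ℝ) / R)))
      * e (-(m * ((i : ℝ) / R))) := by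
    have e1 : ∀ i ∈ range R, FF R S T f h i * e (-(m * ((i : ℝ) / R)))
        = ∑ a ∈ S, ∑ b ∈ T, f a * e (a * ((i : ℝ) / R)) * (h b * e (b * ((i : ℝ) / R)))
          * e (-(m * ((i : ℝ) / R))) := by
      intro i _
      unfold FF
      rw [sum_mul_sum, sum_mul]
      exact sum_congr rfl fun a _ => by rw [sum_mul]
    rw [sum_congr rfl e1, sum_comm]
    exact sum_congr rfl fun a _ => by rw [sum_comm]
  rw [h0]
  unfold EE
  rw [mul_sum]
  refine sum_congr rfl fun a ha => ?_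
  rw [mul_sum]
  refine sum_congr rfl fun b hb => ?_
  have h1 : ∀ i ∈ range R, f a * e (a * ((i : ℝ) / R)) * (h b * e (b * ((i : ℝ) / R)))
      * e (-(m * ((i : ℝ) / R)))
      = f a * h b * e (i * ((((a : ℤ) + b - m : ℤ) : ℝ) / R)) := by
    intro i _
    have h2 : (i : ℝ) * ((((a : ℤ) + b - m : ℤ) : ℝ) / R)
        = a * ((i : ℝ) / R) + (b * ((i : ℝ) / R) + -(m * ((i : ℝ) / R))) := by
      push_cast
      ring
    rw [h2, e_add, e_add]
    ring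
  rw [sum_congr rfl h1, ← mul_sum, full_sum R hR]
  by_cases hab : a + b = m
  · rw [if_pos hab, if_pos]
    · ring
    · rw [← hab]
      push_cast
      simp
  · rw [if_neg hab, if_neg, mul_zero, mul_zero]
    intro hdvd
    apply hab
    have h4 : ((a : ℤ) + b - m) = 0 := by
      apply Int.eq_zero_of_abs_lt_dvd hdvd
      rw [abs_lt]
      have := hST a ha b hb
      constructor <;> omega
    omega

theorem sum_FF_le (R : ℕ) (hR : 0 < R) (S T : Finset ℕ) (hS : ∀ a ∈ S, a < R)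
    (hT : ∀ b ∈ T, b < R) (f h : ℕ → ℂ) :
    ∑ i ∈ range R, ‖FF R S T f h i‖
      ≤ R * (√(∑ a ∈ S, ‖f a‖ ^ 2) * √(∑ b ∈ T, ‖h b‖ ^ 2)) := by
  have h1 : ∀ i ∈ range R, ‖FF R S T f h i‖
      = ‖∑ a ∈ S, f a * e (a * ((i : ℝ) / R))‖ * ‖∑ b ∈ T, h b * e (b * ((i : ℝ) / R))‖ := by
    intro i _
    unfold FF
    rw [norm_mul]
  rw [sum_congr rfl h1]
  refine (Real.sum_mul_le_sqrt_mul_sqrt _ _ _).trans ?_
  rw [parseval R hR S hS f, parseval R hR T hT h, Real.sqrt_mul (by positivity),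
    Real.sqrt_mul (by positivity)]
  have h2 : √(R : ℝ) * √R = R := Real.mul_self_sqrt (by positivity)
  calc √(R : ℝ) * √(∑ a ∈ S, ‖f a‖ ^ 2) * (√(R : ℝ) * √(∑ b ∈ T, ‖h b‖ ^ 2))
      = (√(R : ℝ) * √R) * (√(∑ a ∈ S, ‖f a‖ ^ 2) * √(∑ b ∈ T, ‖h b‖ ^ 2)) := by ring
    _ ≤ _ := by rw [h2]

/-- The mean square of a convolution over a sequence `g k`, `k ∈ 𝒦`. -/
theorem seq_ineq (R : ℕ) (hR : 0 < R) (S T : Finset ℕ) (hS : ∀ a ∈ S, a < R)
    (hT : ∀ b ∈ T, b < R) (hST : ∀ a ∈ S, ∀ b ∈ T, a + b < R) (f h : ℕ → ℂ)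
    (I : Finset ℕ) (g : ℕ → ℕ) (hg : ∀ k ∈ I, g k < R) (Φ κ J : ℝ) (hκ : 0 ≤ κ) (hΦ0 : 0 ≤ Φ)
    (hΦ : ∀ i ∈ range R, ‖FF R S T f h i‖ ≤ Φ)
    (hW : ∀ j ∈ range R, (((range R).filter (fun i : ℕ =>
      κ < ‖∑ k ∈ I, e (g k * (((i : ℝ) - j) / R))‖)).card : ℝ) ≤ J) :
    ∑ k ∈ I, ‖EE S T f h (g k)‖ ^ 2
      ≤ (√(∑ a ∈ S, ‖f a‖ ^ 2) * √(∑ b ∈ T, ‖h b‖ ^ 2))
        * (Φ * I.card * J / R + κ * (√(∑ a ∈ S, ‖f a‖ ^ 2) * √(∑ b ∈ T, ‖h b‖ ^ 2))) := by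
  set G := √(∑ a ∈ S, ‖f a‖ ^ 2) * √(∑ b ∈ T, ‖h b‖ ^ 2) with hG
  have hG0 : 0 ≤ G := by positivity
  have hRr : (0 : ℝ) < R := by exact_mod_cast hR
  have hsumF := sum_FF_le R hR S T hS hT f h
  rw [← hG] at hsumF
  set F := FF R S T f h with hF
  set W : ℕ → ℕ → ℂ := fun i j => ∑ k ∈ I, e (g k * (((i : ℝ) - j) / R)) with hWd
  have h1 : (R : ℝ) ^ 2 * ∑ k ∈ I, ‖EE S T f h (g k)‖ ^ 2
      ≤ ∑ j ∈ range R, ‖F j‖ * ∑ i ∈ range R, ‖F i‖ * ‖W i j‖ := by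
    have h2 : (((R : ℝ) ^ 2 * ∑ k ∈ I, ‖EE S T f h (g k)‖ ^ 2 : ℝ) : ℂ)
        = ∑ j ∈ range R, ∑ i ∈ range R, F i * (starRingEnd ℂ) (F j) * (starRingEnd ℂ) (W i j) := by
      rw [mul_sum]
      push_cast
      have h3 : ∀ k ∈ I, (R : ℂ) ^ 2 * (‖EE S T f h (g k)‖ : ℂ) ^ 2
          = ∑ j ∈ range R, ∑ i ∈ range R, F i * (starRingEnd ℂ) (F j)
            * e (-(g k * (((i : ℝ) - j) / R))) := by
        intro k hk
        have h4 : (R : ℂ) ^ 2 * (‖EE S T f h (g k)‖ : ℂ) ^ 2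
            = ((R : ℂ) * EE S T f h (g k)) * (starRingEnd ℂ) ((R : ℂ) * EE S T f h (g k)) := by
          rw [map_mul, ← Complex.mul_conj', Complex.conj_natCast]
          ring
        rw [h4, EE_eq R hR S T hST f h (g k) (hg k hk), map_sum, mul_comm, sum_mul_sum]
        refine sum_congr rfl fun j _ => sum_congr rfl fun i _ => ?_
        rw [map_mul, conj_e, ← hF]
        have h5 : -((g k : ℝ) * (((i : ℝ) - j) / R)) = -(g k * ((i : ℝ) / R)) + - -(g k * ((j : ℝ) / R)) := by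
          ring
        rw [h5, e_add]
        ring
      rw [sum_congr rfl h3, sum_comm]
      refine sum_congr rfl fun j _ => ?_
      rw [sum_comm]
      refine sum_congr rfl fun i _ => ?_
      rw [← mul_sum, hWd]
      simp only
      rw [map_sum]
      congr 1
      refine sum_congr rfl fun k _ => ?_
      rw [conj_e]
    have h3 : (R : ℝ) ^ 2 * ∑ k ∈ I, ‖EE S T f h (g k)‖ ^ 2
        = ‖(((R : ℝ) ^ 2 * ∑ k ∈ I, ‖EE S T f h (g k)‖ ^ 2 : ℝ) : ℂ)‖ := by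
      rw [Complex.norm_real, Real.norm_eq_abs, abs_of_nonneg (by positivity)]
    rw [h3, h2]
    refine norm_sum_le_of_le _ fun j _ => ?_
    rw [mul_sum]
    refine norm_sum_le_of_le _ fun i _ => ?_
    rw [norm_mul, norm_mul, RCLike.norm_conj, RCLike.norm_conj]
    exact le_of_eq (by ring)
  have h2 : ∀ j ∈ range R, ∑ i ∈ range R, ‖F i‖ * ‖W i j‖ ≤ Φ * I.card * J + κ * (R * G) := by
    intro j hj
    have hWle : ∀ i, ‖W i j‖ ≤ I.card := by
      intro i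
      calc ‖W i j‖ ≤ ∑ k ∈ I, (1 : ℝ) := norm_sum_le_of_le _ fun k _ => by rw [norm_e]
        _ = I.card := by simp
    rw [← sum_filter_add_sum_filter_not (range R) (fun i => κ < ‖W i j‖)]
    apply add_le_add
    · calc ∑ i ∈ (range R).filter (fun i => κ < ‖W i j‖), ‖F i‖ * ‖W i j‖
          ≤ ∑ i ∈ (range R).filter (fun i => κ < ‖W i j‖), Φ * I.card := by
            refine sum_le_sum fun i hi => ?_
            rw [mem_filter] at hi
            exact mul_le_mul (hΦ i hi.1) (hWle i) (norm_nonneg _) hΦ0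
        _ = (((range R).filter (fun i => κ < ‖W i j‖)).card : ℝ) * (Φ * I.card) := by
            rw [sum_const, nsmul_eq_mul]
        _ ≤ J * (Φ * I.card) := by
            gcongr
            exact hW j hj
        _ = _ := by ring
    · calc ∑ i ∈ (range R).filter (fun i => ¬ κ < ‖W i j‖), ‖F i‖ * ‖W i j‖
          ≤ ∑ i ∈ (range R).filter (fun i => ¬ κ < ‖W i j‖), ‖F i‖ * κ := by
            refine sum_le_sum fun i hi => ?_
            rw [mem_filter] at hi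
            exact mul_le_mul_of_nonneg_left (not_lt.mp hi.2) (norm_nonneg _)
        _ ≤ ∑ i ∈ range R, ‖F i‖ * κ :=
            sum_le_sum_of_subset_of_nonneg (filter_subset _ _) fun _ _ _ => by positivity
        _ = κ * ∑ i ∈ range R, ‖F i‖ := by rw [← sum_mul, mul_comm]
        _ ≤ κ * (R * G) := by gcongr
  have hJ0 : 0 ≤ J := (Nat.cast_nonneg _).trans (hW 0 (mem_range.mpr hR))
  have h3 : (R : ℝ) ^ 2 * ∑ k ∈ I, ‖EE S T f h (g k)‖ ^ 2
      ≤ (R * G) * (Φ * I.card * J + κ * (R * G)) := by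
    refine h1.trans ?_
    calc ∑ j ∈ range R, ‖F j‖ * ∑ i ∈ range R, ‖F i‖ * ‖W i j‖
        ≤ ∑ j ∈ range R, ‖F j‖ * (Φ * I.card * J + κ * (R * G)) :=
          sum_le_sum fun j hj => mul_le_mul_of_nonneg_left (h2 j hj) (norm_nonneg _)
      _ = (∑ j ∈ range R, ‖F j‖) * (Φ * I.card * J + κ * (R * G)) := by rw [sum_mul]
      _ ≤ _ := by gcongr
  have h4 : (R * G) * (Φ * I.card * J + κ * (R * G))
      = (R : ℝ) ^ 2 * (G * (Φ * I.card * J / R + κ * G)) := by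
    field_simp
  rw [h4] at h3
  exact le_of_mul_le_mul_left h3 (by positivity)

end Pool.Agent.Work.MP_484fb8_nt.Poly
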