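import Pool.Agent.Work.Circle.Main
import Pool.Agent.Work.BV.PHI
import Pool.Agent.Work.MP_484fb8_nt.Poly.Meas
import Pool.Agent.Work.MP_484fb8_nt.Poly.Seq

/-!
The mean square of the error term over polynomial values.
-/

set_option autoImplicit false

namespace Pool.Agent.Work.MP_484fb8_nt.Poly

open Finset ArithmeticFunction Pool.Agent.SW Pool.Agent.Circle
open scoped ArithmeticFunction.Moebius

/-- The mean square of the error function, with a logarithmic bound. -/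
theorem hQ_sq' : ∃ C : ℝ, 1 ≤ C ∧ ∀ P L : ℕ, 1 ≤ L → P ^ 4 ≤ L → 1 ≤ P → 1 ≤ Real.log L →
    ∑ b ∈ Ioc 0 L, ‖hQ P b‖ ^ 2 ≤ C * (L * (Real.log L) ^ 2) := by
  obtain ⟨C1, hC1, hphi⟩ := Pool.Agent.BV.stmt_PHI
  refine ⟨2 + 2 * C1 + 2, by linarith, ?_⟩
  intro P L hL hP hP1 hx
  have hL1 : (1 : ℝ) ≤ L := by exact_mod_cast hL
  have h1 : ∀ b ∈ Ioc 0 L, ‖hQ P b‖ ^ 2 ≤ 2 * (Real.log L) ^ 2 + 2 * ‖Lam P b‖ ^ 2 := by
    intro b hb
    rw [mem_Ioc] at hb
    have h2 : ‖(Λ b : ℂ)‖ ≤ Real.log L := by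
      rw [Complex.norm_real, Real.norm_eq_abs, abs_of_nonneg vonMangoldt_nonneg]
      refine vonMangoldt_le_log.trans ?_
      exact Real.log_le_log (by exact_mod_cast hb.1) (by exact_mod_cast hb.2)
    have h3 : ‖hQ P b‖ ≤ Real.log L + ‖Lam P b‖ := (norm_sub_le _ _).trans (by gcongr)
    have h4 := norm_nonneg (Lam P b)
    calc ‖hQ P b‖ ^ 2 ≤ (Real.log L + ‖Lam P b‖) ^ 2 := by gcongr
      _ ≤ _ := by nlinarith [sq_nonneg (Real.log L - ‖Lam P b‖)]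
  have h2 := Lam_sq P L
  have hPL : P ≤ L := by
    refine le_trans ?_ hP
    exact Nat.le_self_pow (by norm_num) P
  have hL2 : 2 ≤ L := by
    by_contra h
    have : L = 1 := by omega
    rw [this] at hx
    norm_num at hx
  have h3 : ∑ r ∈ Ioc 0 P, (μ r : ℝ) ^ 2 / (r.totient : ℝ) ≤ C1 * Real.log L := by
    refine le_trans ?_ (hphi L hL2)
    calc ∑ r ∈ Ioc 0 P, (μ r : ℝ) ^ 2 / (r.totient : ℝ) ≤ ∑ r ∈ Ioc 0 P, 1 / (r.totient : ℝ) := by
          refine sum_le_sum fun r _ => ?_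
          have : (μ r : ℝ) ^ 2 ≤ 1 := by
            have h4 : |(μ r : ℤ)| ≤ 1 := abs_moebius_le_one
            have h5 : |(μ r : ℝ)| ≤ 1 := by exact_mod_cast h4
            rw [← sq_abs]
            exact pow_le_one₀ (abs_nonneg _) h5
          gcongr
      _ ≤ _ := by
          apply sum_le_sum_of_subset_of_nonneg
          · intro r hr
            rw [mem_Ioc] at hr ⊢
            omega
          · intro r _ _
            positivity
  have h4 : (P : ℝ) ^ 4 ≤ L := by exact_mod_cast hP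
  have hx2 : Real.log L ≤ (Real.log L) ^ 2 := by nlinarith
  have hx3 : 1 ≤ (Real.log L) ^ 2 := by nlinarith
  calc ∑ b ∈ Ioc 0 L, ‖hQ P b‖ ^ 2 ≤ ∑ b ∈ Ioc 0 L, (2 * (Real.log L) ^ 2 + 2 * ‖Lam P b‖ ^ 2) :=
        sum_le_sum h1
    _ = L * (2 * (Real.log L) ^ 2) + 2 * ∑ b ∈ Ioc 0 L, ‖Lam P b‖ ^ 2 := by
        rw [sum_add_distrib, sum_const, Nat.card_Ioc, nsmul_eq_mul, Nat.sub_zero, mul_sum]
    _ ≤ L * (2 * (Real.log L) ^ 2) + 2 * (L * (C1 * (Real.log L) ^ 2) + L * (Real.log L) ^ 2) := by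
        have e1 : (L : ℝ) * ∑ r ∈ Ioc 0 P, (μ r : ℝ) ^ 2 / (r.totient : ℝ)
            ≤ L * (C1 * (Real.log L) ^ 2) := by
          have : C1 * Real.log L ≤ C1 * (Real.log L) ^ 2 := by gcongr
          gcongr
          linarith
        have e2 : (L : ℝ) ≤ L * (Real.log L) ^ 2 := le_mul_of_one_le_right (by linarith) hx3
        linarith
    _ = _ := by ring

theorem mean_sq_poly (d : ℕ) (hd : 1 ≤ d) (a0 : ℕ) (ha0 : 0 < a0) (C0 : ℝ) (hC0 : 1 ≤ C0)
    (A B0 : ℕ) : ∃ A' : ℕ, A ≤ A' ∧ ∃ C : ℝ, 0 < C ∧ ∃ L0 : ℝ,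
    ∀ (F : Polynomial ℝ) (g : ℕ → ℕ) (N K L a b : ℕ) (Y : ℝ),
    F.natDegree ≤ d → F.coeff d = a0 → (∀ k ∈ Ioc a b, (g k : ℝ) = F.eval (k : ℝ)) →
    (∀ k ∈ Ioc a b, g k ≤ L) → 0 ≤ Y → Y ^ d = L → (b : ℝ) ≤ C0 * Y →
    L0 ≤ L → K ≤ N → N ≤ L → (L : ℝ) ≤ N * (Real.log L) ^ B0 →
    ∑ k ∈ Ioc a b, ‖EE (Ioc K N) (Ioc 0 L) (fun n => (Λ n : ℂ)) (hQ (Pp A' L)) (g k)‖ ^ 2
      ≤ C * ((N : ℝ) ^ 2 * Y / (Real.log L) ^ A) := by
  obtain ⟨C1, hC1, c, hmeas⟩ := meas d hd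
  obtain ⟨Ch, hCh, hhQ⟩ := hQ_sq'
  set E : ℕ := A + B0 + 4 with hE
  set A' : ℕ := A + B0 + 4 + 2 * c * E with hA'
  set B : ℕ := 2 * A' + 20 with hB
  set A1 : ℕ := A' + 2 * B0 + B + 2 with hA1
  obtain ⟨Ce, hCe, hexp⟩ := expsum_unif A1 B
  obtain ⟨L1, hL1⟩ := log_pow_eventually (3 * B + A1) Ce hCe
  obtain ⟨L2, hL2⟩ := log_pow_eventually (4 * B + B0) 1 one_pos
  set J0 : ℝ := C1 ^ 2 * (18 + 3 * a0) with hJ0
  set Φ0 : ℝ := 28800 * Ch + 16 * Ce with hΦ0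
  refine ⟨A', by omega, Ch * Φ0 * (2 * C0) * J0 + 2 * C0 * Ch, by positivity,
    max (max L1 L2) 3, ?_⟩
  intro F g N K L a b Y hF hFa hg hgL hY0 hYd hbY hL0 hKN hNL hLN
  have hLr1 : L1 ≤ L := (le_max_left L1 L2).trans ((le_max_left _ _).trans hL0)
  have hLr2 : L2 ≤ L := (le_max_right L1 L2).trans ((le_max_left _ _).trans hL0)
  have hL3 : (3 : ℝ) ≤ L := (le_max_right _ _).trans hL0
  have hx : 1 ≤ Real.log L := one_le_log hL3
  set x := Real.log L with hxdef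
  have hx0 : 0 < x := by linarith
  have hc1 := hL1 L hLr1
  have hc2 := hL2 L hLr2
  rw [← hxdef] at hc1 hc2
  have hsL : √(L : ℝ) ≤ L := by
    rw [Real.sqrt_le_left (by linarith)]
    nlinarith
  set P := Pp A' L with hPdef
  have hP1 : 1 ≤ P := one_le_Pp A' L hx
  have hPr1 : (1 : ℝ) ≤ P := by exact_mod_cast hP1
  have hPx : (P : ℝ) ≤ x ^ B := Pp_le A' L hx
  have hPs : x ^ (A' + 10) ≤ 3 / 2 * √(P : ℝ) := le_sqrt_Pp A' L hx
  have hNpos : 0 < N := by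
    rcases Nat.eq_zero_or_pos N with h | h
    · subst h
      simp only [Nat.cast_zero, zero_mul] at hLN
      linarith
    · exact h
  have hNr : (1 : ℝ) ≤ N := by exact_mod_cast hNpos
  have hNLr : (N : ℝ) ≤ L := by exact_mod_cast hNL
  have hL0r : (0 : ℝ) < L := by linarith
  have hY1 : 1 ≤ Y := by
    by_contra h
    push Not at h
    have : Y ^ d ≤ 1 := pow_le_one₀ hY0 h.le
    linarith
  -- `P^4 ≤ L`
  have hP4 : P ^ 4 ≤ L := by
    have h1 : (P : ℝ) ^ 4 ≤ L := by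
      calc (P : ℝ) ^ 4 ≤ (x ^ B) ^ 4 := by gcongr
        _ = x ^ (4 * B) := by rw [← pow_mul]; ring_nf
        _ ≤ x ^ (4 * B + B0) := pow_le_pow_right₀ hx (by omega)
        _ ≤ 1 * √L := hc2
        _ ≤ L := by rw [one_mul]; exact hsL
    exact_mod_cast h1
  have hP3 : P ^ 3 ≤ N := by
    have h1 : (P : ℝ) ^ 3 * x ^ B0 ≤ N * x ^ B0 := by
      calc (P : ℝ) ^ 3 * x ^ B0 ≤ (x ^ B) ^ 3 * x ^ B0 := by gcongr
        _ = x ^ (3 * B + B0) := by rw [← pow_mul, ← pow_add]; ring_nf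
        _ ≤ x ^ (4 * B + B0) := pow_le_pow_right₀ hx (by omega)
        _ ≤ 1 * √L := hc2
        _ ≤ L := by rw [one_mul]; exact hsL
        _ ≤ N * x ^ B0 := hLN
    have h2 : (P : ℝ) ^ 3 ≤ N := le_of_mul_le_mul_right h1 (by positivity)
    exact_mod_cast h2
  -- the bound `D`
  set D : ℝ := 2 * Ce * (L / x ^ A1) with hD
  have hDb : ∀ q : ℕ, ∀ a : ℤ, 0 < q → q ≤ P → IsCoprime a (q : ℤ) → ∀ y, y ≤ L →
      ‖∑ b ∈ Ioc 0 y, hQ P b * e (b * (a / q))‖ ≤ D := by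
    intro q a hq hqP hco y hy
    have e1 := hexp q a hq hco L (by linarith) (by
      have : (q : ℝ) ≤ P := by exact_mod_cast hqP
      exact this.trans hPx) y (by exact_mod_cast hy)
    have e2 := Lam_twist P q a hq hqP hco y
    have e3 : (P : ℝ) ^ 3 ≤ Ce * (L / x ^ A1) := by
      rw [← mul_div_assoc, le_div_iff₀ (by positivity)]
      calc (P : ℝ) ^ 3 * x ^ A1 ≤ (x ^ B) ^ 3 * x ^ A1 := by gcongr
        _ = x ^ (3 * B + A1) := by rw [← pow_mul, ← pow_add]; ring_nf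
        _ ≤ Ce * √L := hc1
        _ ≤ Ce * L := by gcongr
    have e4 : ∑ b ∈ Ioc 0 y, hQ P b * e (b * (a / q))
        = (∑ n ∈ Ioc 0 y, (Λ n : ℂ) * e (n * (a / q)) - ((μ q : ℝ) / (q.totient : ℝ) * y : ℝ))
          - (∑ b ∈ Ioc 0 y, Lam P b * e (b * (a / q)) - ((wq q * y : ℝ) : ℂ)) := by
      have : ∑ b ∈ Ioc 0 y, hQ P b * e (b * (a / q))
          = ∑ n ∈ Ioc 0 y, (Λ n : ℂ) * e (n * (a / q))
            - ∑ b ∈ Ioc 0 y, Lam P b * e (b * (a / q)) := by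
        rw [← sum_sub_distrib]
        exact sum_congr rfl fun b _ => by rw [hQ]; ring
      rw [this]
      unfold wq
      ring
    rw [e4]
    refine (norm_sub_le _ _).trans ?_
    calc _ ≤ Ce * (L / x ^ A1) + (P : ℝ) ^ 3 := add_le_add e1 e2
      _ ≤ Ce * (L / x ^ A1) + Ce * (L / x ^ A1) := by gcongr
      _ = D := by rw [hD]; ring
  -- mean squares
  have hh := hhQ P L (by omega) hP4 hP1 hx
  rw [← hxdef] at hh
  have hΛle : ∀ n ∈ Ioc K N, ‖(Λ n : ℂ)‖ ≤ x := by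
    intro n hn
    rw [mem_Ioc] at hn
    rw [Complex.norm_real, Real.norm_eq_abs, abs_of_nonneg vonMangoldt_nonneg]
    refine vonMangoldt_le_log.trans ?_
    exact Real.log_le_log (by exact_mod_cast (by omega : 0 < n))
      (by exact_mod_cast (hn.2.trans hNL))
  have hcardKN : ((Ioc K N).card : ℝ) ≤ N := by
    rw [Nat.card_Ioc]
    exact_mod_cast Nat.sub_le N K
  have hf : ∑ n ∈ Ioc K N, ‖(Λ n : ℂ)‖ ^ 2 ≤ N * x ^ 2 := by
    calc ∑ n ∈ Ioc K N, ‖(Λ n : ℂ)‖ ^ 2 ≤ ∑ n ∈ Ioc K N, x ^ 2 := by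
          refine sum_le_sum fun n hn => ?_
          have := hΛle n hn
          gcongr
      _ = ((Ioc K N).card : ℝ) * x ^ 2 := by rw [sum_const, nsmul_eq_mul]
      _ ≤ N * x ^ 2 := by gcongr
  set Sf := √(∑ n ∈ Ioc K N, ‖(Λ n : ℂ)‖ ^ 2) with hSf
  set Sh := √(∑ b ∈ Ioc 0 L, ‖hQ P b‖ ^ 2) with hSh
  have hSf0 : 0 ≤ Sf := Real.sqrt_nonneg _
  have hSh0 : 0 ≤ Sh := Real.sqrt_nonneg _
  have hG2 : (Sf * Sh) ^ 2 ≤ Ch * (N : ℝ) ^ 2 * x ^ (B0 + 4) := by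
    rw [mul_pow, hSf, hSh, Real.sq_sqrt (by positivity), Real.sq_sqrt (by positivity)]
    calc (∑ n ∈ Ioc K N, ‖(Λ n : ℂ)‖ ^ 2) * (∑ b ∈ Ioc 0 L, ‖hQ P b‖ ^ 2)
        ≤ (N * x ^ 2) * (Ch * (L * x ^ 2)) := by gcongr
      _ = Ch * N * x ^ 4 * L := by ring
      _ ≤ Ch * N * x ^ 4 * (N * x ^ B0) := by gcongr
      _ = _ := by rw [pow_add]; ring
  have hG : Sf * Sh ≤ Ch * N * x ^ (B0 + 4) := by
    have h1 : (Sf * Sh) ^ 2 ≤ (Ch * N * x ^ (B0 + 4)) ^ 2 := by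
      refine hG2.trans ?_
      have e1 : Ch ≤ Ch ^ 2 := le_self_pow₀ hCh (by norm_num)
      have e2 : x ^ (B0 + 4) ≤ (x ^ (B0 + 4)) ^ 2 := le_self_pow₀ (one_le_pow₀ hx) (by norm_num)
      rw [mul_pow, mul_pow]
      gcongr
    exact le_of_sq_le_sq h1 (by positivity)
  -- the supremum of the transform
  have hlogN : 1 + Real.log N ≤ 2 * x := by
    have : Real.log N ≤ x := Real.log_le_log (by linarith) hNLr
    linarith
  have hlogN0 : 0 ≤ Real.log N := Real.log_nonneg hNr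
  set s := √(P : ℝ) with hs
  have hs1 : 1 ≤ s := by rw [hs, Real.one_le_sqrt]; exact hPr1
  have hs0 : 0 < s := by linarith
  set R : ℕ := N + L + 1 with hR
  have hΦ : ∀ i ∈ range R, ‖FF R (Ioc K N) (Ioc 0 L) (fun n => (Λ n : ℂ)) (hQ P) i‖
      ≤ Φ0 * (N * L / x ^ A') := by
    intro i _
    have harcs := arcs N K L P hP1 hP3 hKN ((i : ℝ) / R) D hDb
    unfold FF
    rw [norm_mul]
    have hSb : ‖∑ n ∈ Ioc K N, (Λ n : ℂ) * e (n * ((i : ℝ) / R))‖ ≤ N * x := by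
      calc ‖∑ n ∈ Ioc K N, (Λ n : ℂ) * e (n * ((i : ℝ) / R))‖ ≤ ∑ n ∈ Ioc K N, x := by
            refine norm_sum_le_of_le _ fun n hn => ?_
            rw [norm_mul, norm_e, mul_one]
            exact hΛle n hn
        _ = ((Ioc K N).card : ℝ) * x := by rw [sum_const, nsmul_eq_mul]
        _ ≤ N * x := by gcongr
    have hHb : ‖∑ b ∈ Ioc 0 L, hQ P b * e (b * ((i : ℝ) / R))‖ ≤ Ch * L * x := by
      have e1 : ‖∑ b ∈ Ioc 0 L, hQ P b * e (b * ((i : ℝ) / R))‖ ≤ ∑ b ∈ Ioc 0 L, 1 * ‖hQ P b‖ := by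
        refine norm_sum_le_of_le _ fun b _ => ?_
        rw [norm_mul, norm_e, mul_one, one_mul]
      refine e1.trans ((Real.sum_mul_le_sqrt_mul_sqrt _ _ _).trans ?_)
      have e2 : ∑ b ∈ Ioc 0 L, (1 : ℝ) ^ 2 = L := by simp
      rw [e2]
      have e3 : √(∑ b ∈ Ioc 0 L, ‖hQ P b‖ ^ 2) ≤ Ch * √L * x := by
        rw [Real.sqrt_le_left (by positivity)]
        refine hh.trans ?_
        rw [mul_pow, mul_pow, Real.sq_sqrt hL0r.le]
        have e1 : Ch ≤ Ch ^ 2 := le_self_pow₀ hCh (by norm_num)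
        calc Ch * (L * x ^ 2) ≤ Ch ^ 2 * (L * x ^ 2) := by gcongr
          _ = _ := by ring
      calc √(L : ℝ) * √(∑ b ∈ Ioc 0 L, ‖hQ P b‖ ^ 2) ≤ √(L : ℝ) * (Ch * √L * x) := by gcongr
        _ = Ch * (√(L : ℝ) * √L) * x := by ring
        _ = Ch * L * x := by rw [Real.mul_self_sqrt hL0r.le]
    rcases harcs with h | h
    · calc ‖∑ n ∈ Ioc K N, (Λ n : ℂ) * e (n * ((i : ℝ) / R))‖
            * ‖∑ b ∈ Ioc 0 L, hQ P b * e (b * ((i : ℝ) / R))‖
          ≤ (1200 * (N / s) * (1 + Real.log N) ^ 4) * (Ch * L * x) := by gcongr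
        _ ≤ (1200 * (N / s) * (2 * x) ^ 4) * (Ch * L * x) := by gcongr
        _ = 19200 * Ch * (N * L) * (x ^ 5 / s) := by
            field_simp
            ring
        _ ≤ 19200 * Ch * (N * L) * ((3 / 2) / x ^ A') := by
            refine mul_le_mul_of_nonneg_left ?_ (by positivity)
            rw [div_le_div_iff₀ hs0 (by positivity)]
            calc x ^ 5 * x ^ A' = x ^ (A' + 5) := by rw [← pow_add, add_comm]
              _ ≤ x ^ (A' + 10) := pow_le_pow_right₀ hx (by omega)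
              _ ≤ _ := hPs
        _ = 28800 * Ch * (N * L / x ^ A') := by ring
        _ ≤ Φ0 * (N * L / x ^ A') := by
            have : 0 ≤ (N : ℝ) * L / x ^ A' := by positivity
            rw [hΦ0]
            gcongr
            linarith
    · have e1 : 1 + 2 * Real.pi * L * (P / N) ≤ 8 * x ^ (B0 + B) := by
        have e2 : (L : ℝ) * (P / N) ≤ x ^ (B0 + B) := by
          rw [← mul_div_assoc, div_le_iff₀ (by linarith)]
          calc (L : ℝ) * P ≤ (N * x ^ B0) * x ^ B := by gcongr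
            _ = x ^ (B0 + B) * N := by rw [pow_add]; ring
        have e3 : 1 ≤ x ^ (B0 + B) := one_le_pow₀ hx
        have e4 := Real.pi_lt_d2
        have e5 := Real.pi_pos
        have e6 : 2 * Real.pi * L * (P / N) ≤ 2 * Real.pi * x ^ (B0 + B) := by
          rw [mul_assoc (2 * Real.pi)]
          gcongr
        nlinarith
      have e7 : D * (1 + 2 * Real.pi * L * (P / N)) ≤ 16 * Ce * (L / x ^ (A' + B0 + 2)) := by
        calc D * (1 + 2 * Real.pi * L * (P / N)) ≤ D * (8 * x ^ (B0 + B)) := by gcongr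
          _ = 16 * Ce * (L / x ^ (A' + B0 + 2)) := by
              rw [hD, hA1]
              have : x ^ (A' + 2 * B0 + B + 2) = x ^ (A' + B0 + 2) * x ^ (B0 + B) := by
                rw [← pow_add]; congr 1; ring
              rw [this]
              field_simp
              ring
      calc ‖∑ n ∈ Ioc K N, (Λ n : ℂ) * e (n * ((i : ℝ) / R))‖
            * ‖∑ b ∈ Ioc 0 L, hQ P b * e (b * ((i : ℝ) / R))‖
          ≤ (N * x) * (16 * Ce * (L / x ^ (A' + B0 + 2))) := by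
            gcongr
            exact h.trans e7
        _ = 16 * Ce * (N * L / x ^ (A' + B0 + 1)) := by
            have : x ^ (A' + B0 + 2) = x ^ (A' + B0 + 1) * x := by rw [← pow_succ]
            rw [this]
            field_simp
        _ ≤ 16 * Ce * (N * L / x ^ A') := by
            have hp : x ^ A' ≤ x ^ (A' + B0 + 1) := pow_le_pow_right₀ hx (by omega)
            gcongr
        _ ≤ Φ0 * (N * L / x ^ A') := by
            have : 0 ≤ (N : ℝ) * L / x ^ A' := by positivity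
            rw [hΦ0]
            gcongr
            linarith
  -- the interval
  set Kw : ℕ := ⌈C0 * Y⌉₊ with hKw
  have hC0Y : 1 ≤ C0 * Y := one_le_mul_of_one_le_of_one_le hC0 hY1
  have hKw1 : C0 * Y ≤ Kw := Nat.le_ceil _
  have hKw2 : (Kw : ℝ) ≤ 2 * C0 * Y := by
    have : (Kw : ℝ) < C0 * Y + 1 := Nat.ceil_lt_add_one (by positivity)
    linarith
  have hKw0 : 0 < Kw := by
    have : (0 : ℝ) < Kw := by linarith
    exact_mod_cast this
  have hbKw : b ≤ Kw := by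
    have : (b : ℝ) ≤ Kw := hbY.trans hKw1
    exact_mod_cast this
  have hKwd : (L : ℝ) ≤ (Kw : ℝ) ^ d := by
    rw [← hYd]
    apply pow_le_pow_left₀ hY0
    refine le_trans ?_ hKw1
    nlinarith
  set δ : ℝ := 1 / x ^ E with hδ
  have hδ0 : 0 < δ := by positivity
  have hδ1 : δ ≤ 1 := by
    rw [hδ, div_le_one (by positivity)]
    exact one_le_pow₀ hx
  have hδu : 1 / δ = x ^ E := by rw [hδ, one_div_one_div]
  set J : ℝ := J0 * x ^ (2 * c * E) with hJ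
  have hRr : (R : ℝ) ≤ 3 * L := by
    rw [hR]
    push_cast
    linarith
  have hR0 : 0 < R := by omega
  have hW : ∀ j ∈ range R, (((range R).filter (fun i : ℕ =>
      δ * Kw < ‖∑ k ∈ Ioc a b, e (g k * (((i : ℝ) - j) / R))‖)).card : ℝ) ≤ J := by
    intro j _
    refine (hmeas F g a0 a b Kw R δ hF hFa ha0 hg (by omega) hKw0 hR0 hδ0 hδ1 j).trans ?_
    rw [hδu, hJ, hJ0]
    have e1 : 6 * (R : ℝ) / (Kw : ℝ) ^ d ≤ 18 := by
      rw [div_le_iff₀ (by positivity)]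
      linarith
    calc (C1 * (x ^ E) ^ c) ^ 2 * (6 * R / (Kw : ℝ) ^ d + 3 * a0)
        ≤ (C1 * (x ^ E) ^ c) ^ 2 * (18 + 3 * a0) := by gcongr
      _ = C1 ^ 2 * (18 + 3 * a0) * x ^ (2 * c * E) := by
          have : 2 * c * E = (E * c) * 2 := by ring
          rw [this, pow_mul, pow_mul]
          ring
  have hmain := seq_ineq R hR0 (Ioc K N) (Ioc 0 L)
    (fun a ha => by rw [mem_Ioc] at ha; omega) (fun b hb => by rw [mem_Ioc] at hb; omega)
    (fun a ha b hb => by rw [mem_Ioc] at ha hb; omega) (fun n => (Λ n : ℂ)) (hQ P)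
    (Ioc a b) g (fun k hk => by have := hgL k hk; omega)
    (Φ0 * (N * L / x ^ A')) (δ * Kw) J (by positivity) (by positivity) hΦ hW
  refine hmain.trans ?_
  rw [← hSf, ← hSh]
  have hJpos : 0 ≤ J := by positivity
  have hI : ((Ioc a b).card : ℝ) ≤ 2 * C0 * Y := by
    rw [Nat.card_Ioc]
    have h1 : ((b - a : ℕ) : ℝ) ≤ Kw := by exact_mod_cast (by omega : b - a ≤ Kw)
    linarith
  have hRL : (L : ℝ) ≤ R := by
    rw [hR]
    push_cast
    linarith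
  have hΦ00 : 0 ≤ Φ0 := by positivity
  have hpart1 : (Sf * Sh) * (Φ0 * (N * L / x ^ A') * ((Ioc a b).card : ℝ) * J / R)
      ≤ Ch * Φ0 * (2 * C0) * J0 * ((N : ℝ) ^ 2 * Y / x ^ A) := by
    calc (Sf * Sh) * (Φ0 * (N * L / x ^ A') * ((Ioc a b).card : ℝ) * J / R)
        ≤ (Ch * N * x ^ (B0 + 4)) * (Φ0 * (N * L / x ^ A') * (2 * C0 * Y) * J / L) := by gcongr
      _ = Ch * Φ0 * (2 * C0) * J0 * ((N : ℝ) ^ 2 * Y) * (x ^ (B0 + 4) * x ^ (2 * c * E) / x ^ A') := by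
          rw [hJ]
          field_simp
      _ = Ch * Φ0 * (2 * C0) * J0 * ((N : ℝ) ^ 2 * Y) * (1 / x ^ A) := by
          congr 1
          rw [div_eq_div_iff (by positivity) (by positivity), one_mul, ← pow_add, ← pow_add, hA']
          congr 1
          ring
      _ = _ := by ring
  have hpart2 : (Sf * Sh) * (δ * Kw * (Sf * Sh)) ≤ 2 * C0 * Ch * ((N : ℝ) ^ 2 * Y / x ^ A) := by
    calc (Sf * Sh) * (δ * Kw * (Sf * Sh)) = δ * Kw * (Sf * Sh) ^ 2 := by ring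
      _ ≤ δ * (2 * C0 * Y) * (Ch * (N : ℝ) ^ 2 * x ^ (B0 + 4)) := by gcongr
      _ = 2 * C0 * Ch * ((N : ℝ) ^ 2 * Y) * (x ^ (B0 + 4) / x ^ E) := by
          rw [hδ]
          ring
      _ = 2 * C0 * Ch * ((N : ℝ) ^ 2 * Y) * (1 / x ^ A) := by
          congr 1
          rw [div_eq_div_iff (by positivity) (by positivity), one_mul, ← pow_add, hE]
          congr 1
          ring
      _ = _ := by ring
  rw [mul_add]
  calc _ ≤ Ch * Φ0 * (2 * C0) * J0 * ((N : ℝ) ^ 2 * Y / x ^ A)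
        + 2 * C0 * Ch * ((N : ℝ) ^ 2 * Y / x ^ A) := add_le_add hpart1 hpart2
    _ = _ := by ring

end Pool.Agent.Work.MP_484fb8_nt.Poly
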