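import Pool.Agent.Work.Circle.Expo

/-!
Vinogradov's lemma: if many multiples `h θ` with `h ≤ K` are close to integers, then `θ` is close to
a rational number with a small denominator.
-/

set_option autoImplicit false

namespace Pool.Agent.Work.MP_484fb8_nt.Poly

open Finset Pool.Agent.Circle

theorem round_mono' {x y : ℝ} (h : x ≤ y) : round x ≤ round y := by
  rw [round_eq, round_eq]
  exact Int.floor_mono (by linarith)

/-- The number of points of an arithmetic progression close to the integers. -/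
theorem count_pos (M : ℕ) (β η ε : ℝ) (hη : 0 < η) (hε : 0 ≤ ε) :
    (((range (M + 1)).filter (fun m : ℕ => dn (β + m * η) ≤ ε)).card : ℝ)
      ≤ (M * η + 2) * (2 * ε / η + 1) := by
  set S := (range (M + 1)).filter (fun m : ℕ => dn (β + m * η) ≤ ε) with hS
  set I := S.image (fun m : ℕ => round (β + m * η)) with hI
  have h1 : (I.card : ℝ) ≤ M * η + 2 := by
    have h2 : I ⊆ Icc (round β) (round (β + M * η)) := by
      intro j hj
      rw [hI, mem_image] at hj
      obtain ⟨m, hm, rfl⟩ := hj
      rw [hS, mem_filter, mem_range] at hm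
      have hmM : (m : ℝ) ≤ M := by exact_mod_cast Nat.lt_succ_iff.mp hm.1
      rw [mem_Icc]
      constructor
      · apply round_mono'
        have : 0 ≤ (m : ℝ) * η := by positivity
        linarith
      · apply round_mono'
        have : (m : ℝ) * η ≤ M * η := by gcongr
        linarith
    have h3 := card_le_card h2
    rw [Int.card_Icc] at h3
    have h4 : round β ≤ round (β + M * η) := by
      apply round_mono'
      have : 0 ≤ (M : ℝ) * η := by positivity
      linarith
    have h5 : ((round (β + M * η) + 1 - round β).toNat : ℝ) = (round (β + M * η) : ℝ) + 1 - round β := by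
      have h6 : ((round (β + M * η) + 1 - round β).toNat : ℤ) = round (β + M * η) + 1 - round β :=
        Int.toNat_of_nonneg (by omega)
      exact_mod_cast h6
    have h6 : (I.card : ℝ) ≤ (round (β + M * η) : ℝ) + 1 - round β := by
      rw [← h5]
      exact_mod_cast h3
    have h7 := abs_le.mp (abs_sub_round (β + M * η))
    have h8 := abs_le.mp (abs_sub_round β)
    linarith [h7.1, h7.2, h8.1, h8.2]
  have h3 : ∀ j ∈ I, ((S.filter (fun m : ℕ => round (β + m * η) = j)).card : ℝ) ≤ 2 * ε / η + 1 := by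
    intro j hj
    set T := S.filter (fun m : ℕ => round (β + m * η) = j) with hT
    have hTne : T.Nonempty := by
      rw [hI, mem_image] at hj
      obtain ⟨m, hm, hmj⟩ := hj
      exact ⟨m, mem_filter.mpr ⟨hm, hmj⟩⟩
    set m0 := T.min' hTne with hm0
    have hmem : ∀ m ∈ T, |β + m * η - j| ≤ ε := by
      intro m hm
      rw [hT, mem_filter, hS, mem_filter] at hm
      rw [← hm.2]
      exact hm.1.2
    have h4 : T ⊆ Icc m0 (m0 + ⌊2 * ε / η⌋₊) := by
      intro m hm
      have h5 : m0 ≤ m := min'_le T m hm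
      have h6 := abs_le.mp (hmem m hm)
      have h7 := abs_le.mp (hmem m0 (min'_mem T hTne))
      rw [mem_Icc]
      refine ⟨h5, ?_⟩
      have h8 : ((m - m0 : ℕ) : ℝ) ≤ 2 * ε / η := by
        rw [Nat.cast_sub h5, le_div_iff₀ hη]
        nlinarith [h6.1, h6.2, h7.1, h7.2]
      have h9 : m - m0 ≤ ⌊2 * ε / η⌋₊ := Nat.le_floor h8
      omega
    have h5 := card_le_card h4
    rw [Nat.card_Icc] at h5
    have h6 : T.card ≤ ⌊2 * ε / η⌋₊ + 1 := by omega
    have h7 : (⌊2 * ε / η⌋₊ : ℝ) ≤ 2 * ε / η := Nat.floor_le (by positivity)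
    have h8 : (T.card : ℝ) ≤ ⌊2 * ε / η⌋₊ + 1 := by exact_mod_cast h6
    linarith
  have h4 : (0 : ℝ) ≤ 2 * ε / η + 1 := by positivity
  calc (S.card : ℝ) = ∑ j ∈ I, ((S.filter (fun m : ℕ => round (β + m * η) = j)).card : ℝ) := by
        exact_mod_cast card_eq_sum_card_image _ S
    _ ≤ ∑ j ∈ I, (2 * ε / η + 1) := sum_le_sum h3
    _ = I.card * (2 * ε / η + 1) := by rw [sum_const, nsmul_eq_mul]
    _ ≤ _ := by gcongr

/-- The same for a difference of any sign. -/
theorem count_abs (M : ℕ) (β η ε : ℝ) (hη : η ≠ 0) (hε : 0 ≤ ε) :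
    (((range (M + 1)).filter (fun m : ℕ => dn (β + m * η) ≤ ε)).card : ℝ)
      ≤ (M * |η| + 2) * (2 * ε / |η| + 1) := by
  rcases lt_or_gt_of_ne hη with h | h
  · have h1 := count_pos M (-β) (-η) ε (by linarith) hε
    rw [abs_of_neg h]
    refine le_trans (le_of_eq ?_) h1
    congr 2
    apply filter_congr
    intro m _
    have : -β + (m : ℝ) * -η = -(β + m * η) := by ring
    rw [this, dn_neg]
  · rw [abs_of_pos h]
    exact count_pos M β η ε h hε

/-- **Vinogradov's lemma.** -/
theorem vino (K : ℕ) (θ ε δ : ℝ) (hδ : 0 < δ) (hε : 0 ≤ ε) (hεδ : 16 * ε ≤ δ) (hδ1 : δ ≤ 1)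
    (hK : 24 ≤ δ ^ 2 * K) (H : Finset ℕ) (hH : H ⊆ Ioc 0 K) (hcard : δ * K ≤ H.card)
    (hdn : ∀ h ∈ H, dn (h * θ) ≤ ε) :
    ∃ q : ℕ, 0 < q ∧ (q : ℝ) ≤ 3 / δ ∧ dn (q * θ) ≤ 24 * ε / (δ ^ 2 * K) := by
  have hK0 : (0 : ℝ) < K := by
    by_contra h
    push Not at h
    have : δ ^ 2 * K ≤ 0 := mul_nonpos_of_nonneg_of_nonpos (by positivity) h
    linarith
  have hδK : 24 ≤ δ * K := by
    calc (24 : ℝ) ≤ δ ^ 2 * K := hK
      _ = δ * (δ * K) := by ring
      _ ≤ 1 * (δ * K) := by gcongr
      _ = δ * K := one_mul _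
  set g : ℕ := ⌈2 / δ⌉₊ with hg
  have hg1 : 2 / δ ≤ g := Nat.le_ceil _
  have hg0 : 0 < g := Nat.ceil_pos.mpr (by positivity)
  have hgr : (0 : ℝ) < g := by exact_mod_cast hg0
  have hg2 : (g : ℝ) ≤ 3 / δ := by
    have h1 : (g : ℝ) < 2 / δ + 1 := Nat.ceil_lt_add_one (by positivity)
    have h2 : 1 ≤ 1 / δ := by rw [le_div_iff₀ hδ]; linarith
    have h3 : 3 / δ = 2 / δ + 1 / δ := by ring
    linarith
  -- two elements in the same block
  obtain ⟨h1, hh1, h2, hh2, hne, heq⟩ : ∃ x ∈ H, ∃ y ∈ H, x ≠ y ∧ x / g = y / g := by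
    apply exists_ne_map_eq_of_card_lt_of_maps_to (t := range (K / g + 1))
    · rw [card_range]
      have h3 : ((K / g + 1 : ℕ) : ℝ) < H.card := by
        have h4 : ((K / g : ℕ) : ℝ) ≤ K / g := Nat.cast_div_le
        have h5 : (K : ℝ) / g ≤ δ * K / 2 := by
          rw [div_le_iff₀ hgr]
          have h6 : 2 ≤ δ * g := by
            rw [div_le_iff₀ hδ] at hg1
            linarith
          nlinarith
        push_cast
        linarith
      exact_mod_cast h3
    · intro h hh
      rw [mem_coe, mem_range]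
      have := mem_Ioc.mp (hH hh)
      exact Nat.lt_succ_of_le (Nat.div_le_div_right this.2)
  -- the difference
  obtain ⟨q, hq0, hqg, hqdn⟩ : ∃ q : ℕ, 0 < q ∧ q < g ∧ dn (q * θ) ≤ 2 * ε := by
    have key : ∀ x ∈ H, ∀ y ∈ H, x < y → x / g = y / g →
        ∃ q : ℕ, 0 < q ∧ q < g ∧ dn (q * θ) ≤ 2 * ε := by
      intro x hx y hy hxy hxyg
      refine ⟨y - x, by omega, ?_, ?_⟩
      · have e1 := Nat.div_add_mod x g
        have e2 := Nat.div_add_mod y g
        have e3 := Nat.mod_lt x hg0
        have e4 := Nat.mod_lt y hg0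
        rw [hxyg] at e1
        omega
      · have e1 : ((y - x : ℕ) : ℝ) * θ = y * θ + -(x * θ) := by
          rw [Nat.cast_sub hxy.le]
          ring
        rw [e1]
        refine (dn_add_le _ _).trans ?_
        rw [dn_neg]
        linarith [hdn x hx, hdn y hy]
    rcases lt_or_gt_of_ne hne with h | h
    · exact key h1 hh1 h2 hh2 h heq
    · exact key h2 hh2 h1 hh1 h heq.symm
  refine ⟨q, hq0, ?_, ?_⟩
  · have : (q : ℝ) ≤ g := by exact_mod_cast hqg.le
    linarith
  have hqr : (0 : ℝ) < q := by exact_mod_cast hq0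
  have hq3 : (q : ℝ) ≤ 3 / δ := by
    have : (q : ℝ) ≤ g := by exact_mod_cast hqg.le
    linarith
  set η : ℝ := q * θ - round (q * θ) with hη
  have hηabs : |η| = dn (q * θ) := rfl
  by_cases hη0 : η = 0
  · rw [← hηabs, hη0, abs_zero]
    positivity
  have hηpos : 0 < |η| := abs_pos.mpr hη0
  -- count by residue classes
  have hcount : (H.card : ℝ) ≤ q * ((K / q * |η| + 2) * (2 * ε / |η| + 1)) := by
    have e1 : H.card = ∑ r ∈ range q, (H.filter (fun h => h % q = r)).card := by
      apply card_eq_sum_card_fiberwise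
      intro h _
      rw [mem_coe, mem_range]
      exact Nat.mod_lt h hq0
    have e2 : ∀ r ∈ range q, ((H.filter (fun h => h % q = r)).card : ℝ)
        ≤ (K / q * |η| + 2) * (2 * ε / |η| + 1) := by
      intro r _
      have e3 : ((H.filter (fun h => h % q = r)).card : ℝ)
          ≤ (((range (K / q + 1)).filter (fun m : ℕ => dn (r * θ + m * η) ≤ ε)).card : ℝ) := by
        have e4 : (H.filter (fun h => h % q = r)).card
            ≤ ((range (K / q + 1)).filter (fun m : ℕ => dn (r * θ + m * η) ≤ ε)).card := by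
          apply card_le_card_of_injOn (fun h => h / q)
          · intro h hh
            rw [mem_coe, mem_filter] at hh
            rw [mem_coe, mem_filter, mem_range]
            have e5 := mem_Ioc.mp (hH hh.1)
            refine ⟨Nat.lt_succ_of_le (Nat.div_le_div_right e5.2), ?_⟩
            have e6 := hdn h hh.1
            have e7 : (h : ℝ) * θ = r * θ + ((h / q : ℕ) : ℝ) * η
                + ((((h / q : ℕ) : ℤ) * round (q * θ) : ℤ) : ℝ) := by
              have e8 : (h : ℝ) = q * ((h / q : ℕ) : ℝ) + r := by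
                have := Nat.div_add_mod h q
                rw [hh.2] at this
                exact_mod_cast this.symm
              generalize h / q = m at e8
              rw [hη, e8]
              push_cast
              ring
            rw [e7, dn_add_int] at e6
            exact e6
          · intro x hx y hy hxy
            rw [mem_coe, mem_filter] at hx hy
            simp only at hxy
            have e5 := Nat.div_add_mod x q
            have e6 := Nat.div_add_mod y q
            rw [hx.2, hxy] at e5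
            rw [hy.2] at e6
            omega
        exact_mod_cast e4
      refine e3.trans ((count_abs (K / q) (r * θ) η ε hη0 hε).trans ?_)
      have e5 : ((K / q : ℕ) : ℝ) ≤ K / q := Nat.cast_div_le
      gcongr
    calc (H.card : ℝ) = ∑ r ∈ range q, ((H.filter (fun h => h % q = r)).card : ℝ) := by
          exact_mod_cast e1
      _ ≤ ∑ r ∈ range q, ((K / q * |η| + 2) * (2 * ε / |η| + 1)) := sum_le_sum e2
      _ = _ := by rw [sum_const, card_range, nsmul_eq_mul]
  have hexp : (q : ℝ) * ((K / q * |η| + 2) * (2 * ε / |η| + 1))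
      = 2 * ε * K + K * |η| + 4 * (q * ε / |η|) + 2 * q := by
    field_simp
    ring
  rw [hexp] at hcount
  have h3 : K * |η| ≤ K * (2 * ε) := by
    rw [hηabs]
    gcongr
  have h4 : 16 * (ε * K) ≤ δ * K := by
    calc 16 * (ε * K) = (16 * ε) * K := by ring
      _ ≤ δ * K := by gcongr
  have h5 : 2 * (q : ℝ) ≤ δ * K / 4 := by
    have e1 : 2 * (q : ℝ) ≤ 6 / δ := by
      calc 2 * (q : ℝ) ≤ 2 * (3 / δ) := by gcongr
        _ = 6 / δ := by ring
    refine e1.trans ?_
    rw [div_le_iff₀ hδ]
    calc (6 : ℝ) = 24 / 4 := by norm_num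
      _ ≤ δ ^ 2 * K / 4 := by gcongr
      _ = _ := by ring
  have h6 : δ * K / 2 ≤ 4 * (q * ε / |η|) := by nlinarith
  have h7 : |η| * (δ * K) ≤ 8 * (q * ε) := by
    have e1 : δ * K / 2 * |η| ≤ 4 * (q * ε / |η|) * |η| := by gcongr
    have e2 : 4 * (q * ε / |η|) * |η| = 4 * (q * ε) := by field_simp
    linarith
  rw [← hηabs, le_div_iff₀ (by positivity)]
  calc |η| * (δ ^ 2 * K) = δ * (|η| * (δ * K)) := by ring
    _ ≤ δ * (8 * (q * ε)) := by gcongr
    _ = 8 * ε * (δ * q) := by ring
    _ ≤ 8 * ε * 3 := by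
        gcongr
        rw [le_div_iff₀ hδ] at hq3
        linarith
    _ = 24 * ε := by ring

end Pool.Agent.Work.MP_484fb8_nt.Poly
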