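import Pool.Agent.Work.MP_484fb8_nt.Poly.Vino

/-!
Weyl's inequality with losses that are powers of `1/δ` only: if
`|∑_{k ∈ I} e(p(k))| ≥ δ K`, then the leading coefficient of `p` is close to a rational number with
a denominator bounded by a power of `1/δ`.
-/

set_option autoImplicit false

namespace Pool.Agent.Work.MP_484fb8_nt.Poly

open Finset Pool.Agent.Circle Polynomial

/-! ### Weyl differencing -/

theorem weyl_expand (z : ℕ → ℂ) (a K : ℕ) (b : ℕ) (hab : a ≤ b) (hbK : b ≤ a + K) :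
    (∑ k ∈ Ioc a b, z k) * (starRingEnd ℂ) (∑ k ∈ Ioc a b, z k)
      = ∑ k ∈ Ioc a b, z k * (starRingEnd ℂ) (z k)
        + (∑ h ∈ Ico 1 K, ∑ k ∈ Ioc a (b - h), z (k + h) * (starRingEnd ℂ) (z k))
        + (starRingEnd ℂ) (∑ h ∈ Ico 1 K, ∑ k ∈ Ioc a (b - h), z (k + h) * (starRingEnd ℂ) (z k)) := by
  induction b, hab using Nat.le_induction with
  | base =>
    have h1 : ∀ h ∈ Ico 1 K, ∑ k ∈ Ioc a (a - h), z (k + h) * (starRingEnd ℂ) (z k) = 0 := by
      intro h _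
      rw [Ioc_eq_empty (by omega), sum_empty]
    rw [sum_congr rfl h1]
    simp
  | succ b hab ih =>
    have ih' := ih (by omega)
    set S := ∑ k ∈ Ioc a b, z k with hS
    set D := ∑ h ∈ Ico 1 K, ∑ k ∈ Ioc a (b - h), z (k + h) * (starRingEnd ℂ) (z k) with hD
    have h1 : ∑ k ∈ Ioc a (b + 1), z k = z (b + 1) + S := by
      rw [← Finset.insert_Ioc_right_eq_Ioc_add_one (by omega), sum_insert (by simp)]
    have h2 : ∑ k ∈ Ioc a (b + 1), z k * (starRingEnd ℂ) (z k)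
        = z (b + 1) * (starRingEnd ℂ) (z (b + 1)) + ∑ k ∈ Ioc a b, z k * (starRingEnd ℂ) (z k) := by
      rw [← Finset.insert_Ioc_right_eq_Ioc_add_one (by omega), sum_insert (by simp)]
    have h3 : ∑ h ∈ Ico 1 K, ∑ k ∈ Ioc a (b + 1 - h), z (k + h) * (starRingEnd ℂ) (z k)
        = D + z (b + 1) * (starRingEnd ℂ) S := by
      have h4 : ∀ h ∈ Ico 1 K, ∑ k ∈ Ioc a (b + 1 - h), z (k + h) * (starRingEnd ℂ) (z k)
          = ∑ k ∈ Ioc a (b - h), z (k + h) * (starRingEnd ℂ) (z k)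
            + if h ≤ b - a then z (b + 1) * (starRingEnd ℂ) (z (b + 1 - h)) else 0 := by
        intro h hh
        rw [mem_Ico] at hh
        split_ifs with hle
        · have h5 : b + 1 - h = (b - h) + 1 := by omega
          rw [h5, ← Finset.insert_Ioc_right_eq_Ioc_add_one (by omega), sum_insert (by simp)]
          have h6 : b - h + 1 + h = b + 1 := by omega
          rw [h6]
          ring
        · rw [Ioc_eq_empty (by omega), Ioc_eq_empty (by omega)]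
          simp
      rw [sum_congr rfl h4, sum_add_distrib, ← sum_filter, ← hD]
      congr 1
      rw [hS, map_sum, mul_sum]
      apply sum_nbij' (fun h => b + 1 - h) (fun k => b + 1 - k)
      · intro h hh
        simp only [mem_filter, mem_Ico, mem_Ioc] at hh ⊢
        omega
      · intro k hk
        simp only [mem_filter, mem_Ico, mem_Ioc] at hk ⊢
        omega
      · intro h hh
        simp only [mem_filter, mem_Ico] at hh
        omega
      · intro k hk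
        simp only [mem_Ioc] at hk
        omega
      · intro h hh
        rfl
    rw [h1, h2, h3, map_add, map_add, map_mul, Complex.conj_conj]
    have h7 : (z (b + 1) + S) * ((starRingEnd ℂ) (z (b + 1)) + (starRingEnd ℂ) S)
        = z (b + 1) * (starRingEnd ℂ) (z (b + 1)) + S * (starRingEnd ℂ) S
          + z (b + 1) * (starRingEnd ℂ) S + (starRingEnd ℂ) (z (b + 1)) * S := by ring
    rw [h7, ih']
    ring

theorem weyl_diff (z : ℕ → ℂ) (hz : ∀ k, ‖z k‖ = 1) (a b K : ℕ) (hbK : b ≤ a + K) :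
    ‖∑ k ∈ Ioc a b, z k‖ ^ 2
      ≤ K + 2 * ∑ h ∈ Ico 1 K, ‖∑ k ∈ Ioc a (b - h), z (k + h) * (starRingEnd ℂ) (z k)‖ := by
  rcases Nat.lt_or_ge b a with hba | hab
  · rw [Ioc_eq_empty (by omega), sum_empty, norm_zero, zero_pow two_ne_zero]
    positivity
  have h1 := weyl_expand z a K b hab hbK
  set S := ∑ k ∈ Ioc a b, z k with hS
  set D := ∑ h ∈ Ico 1 K, ∑ k ∈ Ioc a (b - h), z (k + h) * (starRingEnd ℂ) (z k) with hD
  have h2 : ‖S‖ ^ 2 = ‖S * (starRingEnd ℂ) S‖ := by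
    rw [norm_mul, RCLike.norm_conj, sq]
  have h3 : ‖∑ k ∈ Ioc a b, z k * (starRingEnd ℂ) (z k)‖ ≤ K := by
    calc ‖∑ k ∈ Ioc a b, z k * (starRingEnd ℂ) (z k)‖ ≤ ∑ k ∈ Ioc a b, (1 : ℝ) := by
          refine norm_sum_le_of_le _ fun k _ => ?_
          rw [norm_mul, RCLike.norm_conj, hz, one_mul]
      _ = ((b - a : ℕ) : ℝ) := by simp
      _ ≤ K := by exact_mod_cast (by omega : b - a ≤ K)
  have h4 : ‖D‖ ≤ ∑ h ∈ Ico 1 K, ‖∑ k ∈ Ioc a (b - h), z (k + h) * (starRingEnd ℂ) (z k)‖ :=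
    norm_sum_le _ _
  rw [h2, h1]
  refine (norm_add_le _ _).trans ?_
  have h5 := norm_add_le (∑ k ∈ Ioc a b, z k * (starRingEnd ℂ) (z k)) D
  rw [RCLike.norm_conj]
  linarith

/-! ### Differences of polynomials -/

theorem eval_hasse (p : ℝ[X]) (d : ℕ) (hp : p.natDegree ≤ d + 1) (r : ℝ) :
    (taylor r p).coeff d = p.coeff d + (d + 1) * p.coeff (d + 1) * r := by
  rw [taylor_coeff, eval_eq_sum_range' (n := 2), sum_range_succ, sum_range_one]
  · rw [hasseDeriv_coeff, hasseDeriv_coeff, zero_add, Nat.choose_self]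
    have : (1 + d).choose d = d + 1 := by
      rw [add_comm, Nat.choose_succ_self_right]
    rw [this, add_comm 1 d]
    push_cast
    ring
  · have := natDegree_hasseDeriv_le p d
    omega

theorem eval_hasse_top (p : ℝ[X]) (d : ℕ) (hp : p.natDegree ≤ d) (r : ℝ) :
    (taylor r p).coeff d = p.coeff d := by
  rw [taylor_coeff, eval_eq_sum_range' (n := 1), sum_range_one]
  · rw [hasseDeriv_coeff, zero_add, Nat.choose_self]
    push_cast
    ring
  · have := natDegree_hasseDeriv_le p d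
    omega

theorem diff_natDegree (p : ℝ[X]) (d : ℕ) (hp : p.natDegree ≤ d + 1) (r : ℝ) :
    (taylor r p - p).natDegree ≤ d := by
  rw [natDegree_le_iff_coeff_eq_zero]
  intro N hN
  rw [coeff_sub]
  rcases Nat.lt_or_ge (d + 1) N with h | h
  · rw [coeff_eq_zero_of_natDegree_lt (by rw [natDegree_taylor]; omega),
      coeff_eq_zero_of_natDegree_lt (by omega), sub_zero]
  · have : N = d + 1 := by omega
    subst this
    rw [eval_hasse_top p (d + 1) hp r, sub_self]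

theorem diff_coeff (p : ℝ[X]) (d : ℕ) (hp : p.natDegree ≤ d + 1) (r : ℝ) :
    (taylor r p - p).coeff d = (d + 1) * p.coeff (d + 1) * r := by
  rw [coeff_sub, eval_hasse p d hp r]
  ring

/-! ### The inductive statement -/

/-- Weyl's inequality for polynomials of degree at most `d`. -/
def WeylP (d : ℕ) : Prop := ∃ C : ℝ, 1 ≤ C ∧ ∃ c : ℕ, ∀ (p : ℝ[X]) (a b K : ℕ) (δ : ℝ),
  p.natDegree ≤ d → 0 < δ → δ ≤ 1 → 0 < K → b ≤ a + K →
  δ * K ≤ ‖∑ k ∈ Ioc a b, e (p.eval (k : ℝ))‖ →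
  ∃ q : ℕ, 0 < q ∧ (q : ℝ) ≤ C * (1 / δ) ^ c ∧ dn (q * p.coeff d) ≤ C * (1 / δ) ^ c / (K : ℝ) ^ d

theorem weylP_one : WeylP 1 := by
  refine ⟨1, le_rfl, 1, ?_⟩
  intro p a b K δ hp hδ hδ1 hK hb hsum
  have hKr : (0 : ℝ) < K := by exact_mod_cast hK
  have hu : 1 ≤ 1 / δ := by rw [le_div_iff₀ hδ]; linarith
  refine ⟨1, one_pos, by simpa using hu, ?_⟩
  have h1 : ∀ k ∈ Ioc a b, e (p.eval (k : ℝ)) = e (p.coeff 0) * e (k * p.coeff 1) := by
    intro k _
    rw [← e_add]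
    congr 1
    rw [eval_eq_sum_range' (n := 2) (by omega), sum_range_succ, sum_range_one]
    ring
  rw [sum_congr rfl h1, ← mul_sum, norm_mul, norm_e, one_mul] at hsum
  have h2 := norm_geom_le (p.coeff 1) a b
  have h3 := dn_nonneg (p.coeff 1)
  have h4 : 2 * dn (p.coeff 1) * (δ * K) ≤ 1 := by
    refine le_trans ?_ h2
    gcongr
  rw [Nat.cast_one, one_mul, pow_one, pow_one, one_mul, div_div, le_div_iff₀ (by positivity)]
  have h5 : 0 ≤ dn (p.coeff 1) * (δ * K) := by positivity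
  linarith

theorem weylP_succ (d : ℕ) (hd : 1 ≤ d) (ih : WeylP d) : WeylP (d + 1) := by
  obtain ⟨C, hC1, c, hC⟩ := ih
  refine ⟨(384 * (d + 1) * C ^ 3 * 8 ^ (3 * c)) ^ (d + 1), ?_, (6 * c + 4) * (d + 1), ?_⟩
  · have h1 : (1 : ℝ) ≤ C ^ 3 := one_le_pow₀ hC1
    have h2 : (1 : ℝ) ≤ 8 ^ (3 * c) := one_le_pow₀ (by norm_num)
    have h3 : (1 : ℝ) ≤ 384 * ((d : ℝ) + 1) := by
      have : (0 : ℝ) ≤ d := Nat.cast_nonneg d
      linarith
    have h4 : (1 : ℝ) ≤ 384 * (d + 1) * C ^ 3 * 8 ^ (3 * c) :=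
      one_le_mul_of_one_le_of_one_le (one_le_mul_of_one_le_of_one_le h3 h1) h2
    exact one_le_pow₀ h4
  intro p a b K δ hp hδ hδ1 hK hb hsum
  set u : ℝ := 1 / δ with hu
  have hu1 : 1 ≤ u := by rw [hu, le_div_iff₀ hδ]; linarith
  have huδ : u * δ = 1 := by rw [hu]; field_simp
  set Q : ℝ := C * (8 * u ^ 2) ^ c with hQ
  have hQ1 : 1 ≤ Q := by
    have h1 : (1 : ℝ) ≤ (8 * u ^ 2) ^ c := by
      apply one_le_pow₀
      have : 1 ≤ u ^ 2 := one_le_pow₀ hu1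
      linarith
    exact one_le_mul_of_one_le_of_one_le hC1 h1
  have hfin : (384 * ((d : ℝ) + 1) * C ^ 3 * 8 ^ (3 * c)) ^ (d + 1) * u ^ ((6 * c + 4) * (d + 1))
      = (384 * ((d : ℝ) + 1) * Q ^ 3 * u ^ 4) ^ (d + 1) := by
    have h1 : u ^ ((6 * c + 4) * (d + 1)) = (u ^ (6 * c + 4)) ^ (d + 1) := by rw [pow_mul]
    rw [h1, ← mul_pow]
    congr 1
    rw [hQ, mul_pow C, ← pow_mul, mul_pow 8, ← pow_mul, pow_add]
    have h2 : 2 * (c * 3) = 6 * c := by ring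
    rw [h2, mul_comm c 3]
    ring
  rw [hfin]
  have hd0 : (0 : ℝ) ≤ d := Nat.cast_nonneg d
  have hQ3 : 1 ≤ Q ^ 3 := one_le_pow₀ hQ1
  have hu4 : 1 ≤ u ^ 4 := one_le_pow₀ hu1
  have hQ0 : 0 < Q := by linarith
  have hu0 : 0 < u := by linarith
  have hbase1 : 1 ≤ 384 * ((d : ℝ) + 1) * Q ^ 3 * u ^ 4 := by
    have h3 : (1 : ℝ) ≤ 384 * ((d : ℝ) + 1) := by linarith
    exact one_le_mul_of_one_le_of_one_le (one_le_mul_of_one_le_of_one_le h3 hQ3) hu4
  have hbase : 384 * ((d : ℝ) + 1) * Q ^ 3 * u ^ 4 ≤ (384 * ((d : ℝ) + 1) * Q ^ 3 * u ^ 4) ^ (d + 1) :=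
    le_self_pow₀ hbase1 (by omega)
  have hKr : (0 : ℝ) < K := by exact_mod_cast hK
  by_cases hKbig : 384 * Q ^ 2 * u ^ 4 ≤ K
  swap
  · -- `K` is small
    push Not at hKbig
    refine ⟨1, one_pos, ?_, ?_⟩
    · rw [Nat.cast_one]
      exact one_le_pow₀ hbase1
    · have h1 := dn_le_half (((1 : ℕ) : ℝ) * p.coeff (d + 1))
      refine h1.trans ?_
      rw [le_div_iff₀ (by positivity)]
      have h2 : (K : ℝ) ^ (d + 1) ≤ (384 * ((d : ℝ) + 1) * Q ^ 3 * u ^ 4) ^ (d + 1) := by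
        apply pow_le_pow_left₀ hKr.le
        refine hKbig.le.trans ?_
        have h3 : Q ^ 2 ≤ Q ^ 3 := pow_le_pow_right₀ hQ1 (by norm_num)
        have h4 : Q ^ 3 ≤ ((d : ℝ) + 1) * Q ^ 3 := by nlinarith
        calc 384 * Q ^ 2 * u ^ 4 ≤ 384 * (((d : ℝ) + 1) * Q ^ 3) * u ^ 4 := by
              gcongr
              exact h3.trans h4
          _ = _ := by ring
      have h3 : 0 ≤ (K : ℝ) ^ (d + 1) := by positivity
      linarith
  -- the differencing step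
  set U : ℕ → ℝ := fun h => ‖∑ k ∈ Ioc a (b - h), e (p.eval ((k + h : ℕ) : ℝ))
      * (starRingEnd ℂ) (e (p.eval (k : ℝ)))‖ with hU
  have h1 : (δ * K) ^ 2 ≤ K + 2 * ∑ h ∈ Ico 1 K, U h := by
    have h2 := weyl_diff (fun k => e (p.eval (k : ℝ))) (fun k => norm_e _) a b K hb
    refine le_trans ?_ h2
    gcongr
  have hUle : ∀ h, U h ≤ K := by
    intro h
    rw [hU]
    calc ‖∑ k ∈ Ioc a (b - h), e (p.eval ((k + h : ℕ) : ℝ)) * (starRingEnd ℂ) (e (p.eval (k : ℝ)))‖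
        ≤ ∑ k ∈ Ioc a (b - h), (1 : ℝ) := by
          refine norm_sum_le_of_le _ fun k _ => ?_
          rw [norm_mul, RCLike.norm_conj, norm_e, norm_e, one_mul]
      _ = ((b - h - a : ℕ) : ℝ) := by simp
      _ ≤ K := by exact_mod_cast (by omega : b - h - a ≤ K)
  set H := (Ico 1 K).filter (fun h => δ ^ 2 / 8 * K ≤ U h) with hH
  have hHcard : δ ^ 2 * K / 4 ≤ H.card := by
    have h2 : ∑ h ∈ Ico 1 K, U h ≤ H.card * K + K * (δ ^ 2 / 8 * K) := by
      rw [← sum_filter_add_sum_filter_not (Ico 1 K) (fun h => δ ^ 2 / 8 * K ≤ U h)]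
      apply add_le_add
      · calc ∑ h ∈ H, U h ≤ ∑ h ∈ H, (K : ℝ) := sum_le_sum fun h _ => hUle h
          _ = H.card * K := by rw [sum_const, nsmul_eq_mul]
      · calc ∑ h ∈ (Ico 1 K).filter (fun h => ¬ δ ^ 2 / 8 * K ≤ U h), U h
            ≤ ∑ h ∈ (Ico 1 K).filter (fun h => ¬ δ ^ 2 / 8 * K ≤ U h), δ ^ 2 / 8 * K := by
              refine sum_le_sum fun h hh => ?_
              rw [mem_filter] at hh
              exact (not_le.mp hh.2).le
          _ ≤ ∑ h ∈ Ico 1 K, δ ^ 2 / 8 * K :=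
              sum_le_sum_of_subset_of_nonneg (filter_subset _ _) fun _ _ _ => by positivity
          _ = ((K - 1 : ℕ) : ℝ) * (δ ^ 2 / 8 * K) := by
              rw [sum_const, Nat.card_Ico, nsmul_eq_mul]
          _ ≤ K * (δ ^ 2 / 8 * K) := by
              gcongr
              exact Nat.sub_le _ _
    have h3 : (4 : ℝ) ≤ δ ^ 2 * K := by
      have h4 : 4 * u ^ 2 ≤ K := by
        refine le_trans ?_ hKbig
        have e1 : 1 ≤ Q ^ 2 := one_le_pow₀ hQ1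
        have e2 : u ^ 2 ≤ u ^ 4 := pow_le_pow_right₀ hu1 (by norm_num)
        have e3 : 0 ≤ u ^ 2 := by positivity
        nlinarith
      calc (4 : ℝ) = 4 * (u * δ) ^ 2 := by rw [huδ]; norm_num
        _ = δ ^ 2 * (4 * u ^ 2) := by ring
        _ ≤ δ ^ 2 * K := by gcongr
    have h4 : δ ^ 2 * K * K ≤ (1 + 2 * H.card + δ ^ 2 * K / 4) * K := by nlinarith
    have h5 : δ ^ 2 * K ≤ 1 + 2 * H.card + δ ^ 2 * K / 4 := le_of_mul_le_mul_right h4 hKr
    linarith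
  -- apply the induction hypothesis
  have hδ' : 0 < δ ^ 2 / 8 := by positivity
  have hδ'1 : δ ^ 2 / 8 ≤ 1 := by
    have : δ ^ 2 ≤ 1 := pow_le_one₀ hδ.le hδ1
    linarith
  have hinv : 1 / (δ ^ 2 / 8) = 8 * u ^ 2 := by rw [hu]; field_simp
  have hstep : ∀ h ∈ H, ∃ q : ℕ, 0 < q ∧ (q : ℝ) ≤ Q ∧
      dn (q * ((d + 1) * p.coeff (d + 1) * h)) ≤ Q / (K : ℝ) ^ d := by
    intro h hh
    rw [hH, mem_filter] at hh
    have h2 := hC (taylor (h : ℝ) p - p) a (b - h) K (δ ^ 2 / 8) (diff_natDegree p d hp h) hδ' hδ'1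
      hK (by omega) ?_
    · obtain ⟨q, hq0, hqQ, hqdn⟩ := h2
      rw [hinv] at hqQ hqdn
      rw [diff_coeff p d hp] at hqdn
      exact ⟨q, hq0, hqQ, hqdn⟩
    · refine hh.2.trans (le_of_eq ?_)
      rw [hU]
      simp only
      congr 1
      refine sum_congr rfl fun k _ => ?_
      rw [conj_e, ← e_add, eval_sub, taylor_eval]
      congr 1
      push_cast
      ring
  choose! qf hqf using hstep
  -- pigeonhole
  obtain ⟨q, hq0, hqQ, hqcard⟩ : ∃ q : ℕ, 0 < q ∧ (q : ℝ) ≤ Q ∧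
      δ ^ 2 / (4 * Q) * K ≤ ((H.filter (fun h => qf h = q)).card : ℝ) := by
    by_contra hcon
    push Not at hcon
    have h2 : (H.card : ℝ) = ∑ q ∈ Ioc 0 ⌊Q⌋₊, ((H.filter (fun h => qf h = q)).card : ℝ) := by
      have h3 := card_eq_sum_card_fiberwise (f := qf) (s := H) (t := Ioc 0 ⌊Q⌋₊) (by
        intro h hh
        rw [mem_coe, mem_Ioc]
        exact ⟨(hqf h hh).1, Nat.le_floor (hqf h hh).2.1⟩)
      exact_mod_cast h3
    have hfl : 0 < ⌊Q⌋₊ := Nat.floor_pos.mpr hQ1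
    have h3 : ∑ q ∈ Ioc 0 ⌊Q⌋₊, ((H.filter (fun h => qf h = q)).card : ℝ)
        < ∑ q ∈ Ioc 0 ⌊Q⌋₊, δ ^ 2 / (4 * Q) * K := by
      apply sum_lt_sum_of_nonempty
      · exact ⟨1, mem_Ioc.mpr ⟨one_pos, hfl⟩⟩
      · intro q hq
        rw [mem_Ioc] at hq
        exact hcon q hq.1 ((Nat.cast_le.mpr hq.2).trans (Nat.floor_le hQ0.le))
    rw [sum_const, Nat.card_Ioc, nsmul_eq_mul, Nat.sub_zero] at h3
    have h4 : (⌊Q⌋₊ : ℝ) * (δ ^ 2 / (4 * Q) * K) ≤ Q * (δ ^ 2 / (4 * Q) * K) := by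
      gcongr
      exact Nat.floor_le hQ0.le
    have h5 : Q * (δ ^ 2 / (4 * Q) * K) = δ ^ 2 * K / 4 := by
      field_simp
    linarith
  -- Vinogradov's lemma
  set δ2 : ℝ := δ ^ 2 / (4 * Q) with hδ2
  have hδ20 : 0 < δ2 := by positivity
  have hδ2u : δ2 * (4 * Q * u ^ 2) = 1 := by
    rw [hδ2, hu]
    field_simp
  have hδ2inv : 1 / δ2 = 4 * Q * u ^ 2 := by
    rw [eq_comm, eq_div_iff hδ20.ne']
    linarith
  have hδ21 : δ2 ≤ 1 := by
    rw [hδ2, div_le_one (by positivity)]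
    have : δ ^ 2 ≤ 1 := pow_le_one₀ hδ.le hδ1
    linarith
  have hKd : (K : ℝ) ≤ (K : ℝ) ^ d := le_self_pow₀ (by exact_mod_cast hK) (by omega)
  have hε : 16 * (Q / (K : ℝ) ^ d) ≤ δ2 := by
    have h2 : 64 * Q ^ 2 * u ^ 2 ≤ (K : ℝ) ^ d := by
      refine le_trans (le_trans ?_ hKbig) hKd
      have e2 : u ^ 2 ≤ u ^ 4 := pow_le_pow_right₀ hu1 (by norm_num)
      have e3 : 0 ≤ Q ^ 2 := by positivity
      have e4 : 0 ≤ u ^ 4 := by positivity
      calc 64 * Q ^ 2 * u ^ 2 ≤ 64 * Q ^ 2 * u ^ 4 := by gcongr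
        _ ≤ 384 * Q ^ 2 * u ^ 4 := by gcongr; norm_num
    rw [← mul_div_assoc, div_le_iff₀ (by positivity)]
    calc 16 * Q = 16 * Q * (δ2 * (4 * Q * u ^ 2)) := by rw [hδ2u, mul_one]
      _ = δ2 * (64 * Q ^ 2 * u ^ 2) := by ring
      _ ≤ δ2 * (K : ℝ) ^ d := by gcongr
  have hK2 : 24 ≤ δ2 ^ 2 * K := by
    calc (24 : ℝ) = 24 * (δ2 * (4 * Q * u ^ 2)) ^ 2 := by rw [hδ2u]; norm_num
      _ = δ2 ^ 2 * (384 * Q ^ 2 * u ^ 4) := by ring
      _ ≤ δ2 ^ 2 * K := by gcongr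
  obtain ⟨q', hq'0, hq'Q, hq'dn⟩ := vino K (q * ((d + 1) * p.coeff (d + 1))) (Q / (K : ℝ) ^ d) δ2
    hδ20 (by positivity) hε hδ21 hK2 (H.filter (fun h => qf h = q)) (by
      intro h hh
      rw [mem_filter, hH, mem_filter, mem_Ico] at hh
      rw [mem_Ioc]
      omega) hqcard (by
      intro h hh
      rw [mem_filter] at hh
      have h2 := (hqf h hh.1).2.2
      rw [hh.2] at h2
      refine le_trans (le_of_eq ?_) h2
      congr 1
      ring)
  refine ⟨q' * q * (d + 1), by positivity, ?_, ?_⟩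
  · push_cast
    have h2 : (q' : ℝ) ≤ 12 * Q * u ^ 2 := by
      refine hq'Q.trans (le_of_eq ?_)
      calc 3 / δ2 = 3 * (1 / δ2) := by ring
        _ = 12 * Q * u ^ 2 := by rw [hδ2inv]; ring
    calc (q' : ℝ) * q * (d + 1) ≤ (12 * Q * u ^ 2) * Q * (d + 1) := by gcongr
      _ = 12 * (d + 1) * Q ^ 2 * u ^ 2 := by ring
      _ ≤ 384 * (d + 1) * Q ^ 3 * u ^ 4 := by
          have e1 : Q ^ 2 ≤ Q ^ 3 := pow_le_pow_right₀ hQ1 (by norm_num)
          have e2 : u ^ 2 ≤ u ^ 4 := pow_le_pow_right₀ hu1 (by norm_num)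
          gcongr
          norm_num
      _ ≤ _ := hbase
  · have h2 : ((q' * q * (d + 1) : ℕ) : ℝ) * p.coeff (d + 1)
        = q' * (q * ((d + 1) * p.coeff (d + 1))) := by
      push_cast
      ring
    rw [h2]
    refine hq'dn.trans ?_
    have h3 : 24 * (Q / (K : ℝ) ^ d) / (δ2 ^ 2 * K)
        = 384 * Q ^ 3 * u ^ 4 / (K : ℝ) ^ (d + 1) := by
      have h4 : 1 / δ2 ^ 2 = 16 * Q ^ 2 * u ^ 4 := by
        rw [← one_div_pow, hδ2inv]
        ring
      calc 24 * (Q / (K : ℝ) ^ d) / (δ2 ^ 2 * K) = 24 * Q * (1 / δ2 ^ 2) / (K : ℝ) ^ (d + 1) := by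
            rw [pow_succ (K : ℝ) d]
            field_simp
        _ = _ := by rw [h4]; ring
    rw [h3]
    gcongr
    refine le_trans ?_ hbase
    have e1 : (1 : ℝ) ≤ d + 1 := by linarith
    have e2 : 0 ≤ 384 * Q ^ 3 * u ^ 4 := by positivity
    calc 384 * Q ^ 3 * u ^ 4 = 384 * Q ^ 3 * u ^ 4 * 1 := (mul_one _).symm
      _ ≤ 384 * Q ^ 3 * u ^ 4 * (d + 1) := by gcongr
      _ = _ := by ring

theorem weyl (d : ℕ) (hd : 1 ≤ d) : WeylP d := by
  induction d, hd using Nat.le_induction with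
  | base => exact weylP_one
  | succ d hd ih => exact weylP_succ d hd ih

end Pool.Agent.Work.MP_484fb8_nt.Poly
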